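import Pool.Agent.V11222.KU.Geo

/-!
Comparison of the volume of a union of balls with the volume of its neighbourhoods.
-/

set_option autoImplicit false

namespace Pool.Agent.V11222.KU

open Set Filter Topology MeasureTheory Metric
open scoped ENNReal

variable {n : ℕ}

theorem vol_cmp {S : Set (EE n)} (hSm : MeasurableSet S) {δ ρ : ℝ}
    (hS : ∀ x ∈ S, ∃ y, ‖x - y‖ ≤ δ ∧ ball y (δ / 4) ⊆ S) (hδ : 0 < δ) :
    volume (thickening ρ S) * volume (ball (0 : EE n) (δ / 4)) ≤
      volume S * volume (ball (0 : EE n) (ρ + 2 * δ)) := by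
  obtain ⟨A, hAdef⟩ : ∃ A : Set (EE n × EE n), A = {p | dist p.1 p.2 < ρ + 2 * δ ∧ p.2 ∈ S} :=
    ⟨_, rfl⟩
  have hA : MeasurableSet A := by
    rw [hAdef]
    exact (measurableSet_lt measurable_dist measurable_const).inter (measurable_snd hSm)
  have h1 := Measure.prod_apply (μ := (volume : Measure (EE n))) (ν := (volume : Measure (EE n))) hA
  have h2 := Measure.prod_apply_symm (μ := (volume : Measure (EE n)))
    (ν := (volume : Measure (EE n))) hA
  calc volume (thickening ρ S) * volume (ball (0 : EE n) (δ / 4))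
      = ∫⁻ _ in thickening ρ S, volume (ball (0 : EE n) (δ / 4)) := by
        rw [setLIntegral_const, mul_comm]
    _ ≤ ∫⁻ x in thickening ρ S, volume (Prod.mk x ⁻¹' A) := by
        refine setLIntegral_mono' isOpen_thickening.measurableSet fun x hx => ?_
        obtain ⟨s, hs, hxs⟩ := mem_thickening_iff.1 hx
        obtain ⟨y, hy, hyS⟩ := hS s hs
        have h3 : volume (ball (0 : EE n) (δ / 4)) = volume (ball y (δ / 4)) :=
          (Measure.addHaar_ball_center _ y _).symm
        rw [h3]
        refine measure_mono fun z hz => ?_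
        rw [hAdef]
        refine ⟨?_, hyS hz⟩
        show dist x z < ρ + 2 * δ
        have h4 : dist s y ≤ δ := by rw [dist_eq_norm]; exact hy
        have h5 := mem_ball'.1 hz
        have h6 := dist_triangle x s z
        have h7 := dist_triangle s y z
        linarith
    _ ≤ ∫⁻ x, volume (Prod.mk x ⁻¹' A) := setLIntegral_le_lintegral _ _
    _ = ∫⁻ y, volume ((fun x => (x, y)) ⁻¹' A) := by rw [← h1, h2]
    _ ≤ ∫⁻ y, S.indicator (fun _ => volume (ball (0 : EE n) (ρ + 2 * δ))) y := by
        refine lintegral_mono fun y => ?_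
        by_cases hy : y ∈ S
        · rw [indicator_of_mem hy, ← Measure.addHaar_ball_center _ y]
          refine measure_mono fun x hx => ?_
          rw [hAdef] at hx
          exact mem_ball.2 hx.1
        · rw [indicator_of_notMem hy, nonpos_iff_eq_zero]
          have : (fun x => (x, y)) ⁻¹' A = ∅ := by
            rw [eq_empty_iff_forall_notMem]
            intro x hx
            rw [hAdef] at hx
            exact hy hx.2
          rw [this, measure_empty]
    _ = volume S * volume (ball (0 : EE n) (ρ + 2 * δ)) := by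
        rw [lintegral_indicator_const hSm, mul_comm]

/-- a union of balls of radius `δ/4` whose neighbourhood contains a ball -/
theorem vol_lower (n : ℕ) {c C : ℝ} (hc : 0 < c) (hC : 0 < C) : ∃ c' : ℝ, 0 < c' ∧
    ∀ (δ η : ℝ), 0 < δ → 0 < η → ∀ S : Set (EE n), MeasurableSet S →
    (∀ x ∈ S, ∃ y, ‖x - y‖ ≤ δ ∧ ball y (δ / 4) ⊆ S) → ∀ z, ball z c ⊆ thickening (C * η) S →
    ENNReal.ofReal (c' * (δ / (δ + η)) ^ n) ≤ volume S := by
  obtain ⟨v, hv⟩ : ∃ v : ℝ≥0∞, v = volume (ball (0 : EE n) 1) := ⟨_, rfl⟩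
  have hv0 : v ≠ 0 := by rw [hv]; exact (measure_ball_pos _ _ one_pos).ne'
  have hvt : v ≠ ∞ := by rw [hv]; exact measure_ball_lt_top.ne
  have hvr : 0 < v.toReal := ENNReal.toReal_pos hv0 hvt
  refine ⟨v.toReal * (c / (4 * (C + 2))) ^ n, by positivity, ?_⟩
  intro δ η hδ hη S hSm hS z hz
  by_cases hfin : volume S = ∞
  · rw [hfin]; exact le_top
  have h1 := (mul_le_mul_left (measure_mono hz) _).trans
    (vol_cmp (ρ := C * η) hSm hS hδ)
  rw [Measure.addHaar_ball_of_pos volume z hc,
    Measure.addHaar_ball_of_pos volume 0 (by positivity : 0 < δ / 4),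
    Measure.addHaar_ball_of_pos volume 0 (by positivity : 0 < C * η + 2 * δ), ← hv,
    finrank_euclideanSpace_fin] at h1
  -- pass to real numbers
  have h2 := ENNReal.toReal_mono (by
    exact ENNReal.mul_ne_top hfin (ENNReal.mul_ne_top ENNReal.ofReal_ne_top hvt)) h1
  simp only [ENNReal.toReal_mul] at h2
  rw [ENNReal.toReal_ofReal (by positivity), ENNReal.toReal_ofReal (by positivity),
    ENNReal.toReal_ofReal (by positivity)] at h2
  rw [ENNReal.ofReal_le_iff_le_toReal hfin]
  have h3 : c ^ n * v.toReal * (δ / 4) ^ n ≤ (volume S).toReal * (C * η + 2 * δ) ^ n := by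
    refine le_of_mul_le_mul_right (a := v.toReal) ?_ hvr
    calc c ^ n * v.toReal * (δ / 4) ^ n * v.toReal = c ^ n * v.toReal * ((δ / 4) ^ n * v.toReal) := by
          ring
      _ ≤ _ := h2
      _ = _ := by ring
  have h4 : (C * η + 2 * δ) ^ n ≤ ((C + 2) * (δ + η)) ^ n :=
    pow_le_pow_left₀ (by positivity) (by nlinarith) n
  have h5 : c ^ n * v.toReal * (δ / 4) ^ n ≤ (volume S).toReal * ((C + 2) * (δ + η)) ^ n :=
    h3.trans (mul_le_mul_of_nonneg_left h4 ENNReal.toReal_nonneg)
  have h6 : v.toReal * (c / (4 * (C + 2))) ^ n * (δ / (δ + η)) ^ n =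
      c ^ n * v.toReal * (δ / 4) ^ n / ((C + 2) * (δ + η)) ^ n := by
    rw [div_pow, div_pow, div_pow, mul_pow, mul_pow]
    field_simp
  rw [h6, div_le_iff₀ (by positivity)]
  exact h5

end Pool.Agent.V11222.KU
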