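import Pool.Agent.V11222.KO.MaxCase

/-!
Segments which depend on a parameter `k`, negligible sets of segments.
-/

set_option autoImplicit false

namespace Pool.Agent.V11222.KU

open Set Filter Topology Pool.Agent.V11222.KO

/-- a σ-ideal of negligible sets -/
structure Ideal (Ω : Type) where
  Null : Set Ω → Prop
  mono : ∀ {S T : Set Ω}, S ⊆ T → Null T → Null S
  union : ∀ {J : Type} [Countable J] (S : J → Set Ω), (∀ j, Null (S j)) → Null (⋃ j, S j)

variable {Ω : Type} (I : Ideal Ω)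

theorem Ideal.pigeon {J : Type} [Countable J] {V : Set Ω} (hV : ¬ I.Null V) (S : J → Set Ω)
    (h : V ⊆ ⋃ j, S j) : ∃ j, ¬ I.Null (V ∩ S j) := by
  by_contra hcon
  push Not at hcon
  apply hV
  refine I.mono ?_ (I.union (fun j => V ∩ S j) hcon)
  intro x hx
  obtain ⟨j, hj⟩ := mem_iUnion.1 (h hx)
  exact mem_iUnion.2 ⟨j, hx, hj⟩

theorem Ideal.diff {V N : Set Ω} (hV : ¬ I.Null V) (hN : I.Null (V ∩ N)) : ¬ I.Null (V \ N) := by
  intro h
  apply hV
  refine I.mono ?_ (I.union (fun b : Bool => if b then V ∩ N else V \ N) ?_)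
  · intro x hx
    by_cases hxN : x ∈ N
    · exact mem_iUnion.2 ⟨true, by simpa using ⟨hx, hxN⟩⟩
    · exact mem_iUnion.2 ⟨false, by simpa using ⟨hx, hxN⟩⟩
  · intro b
    cases b
    · simpa using h
    · simpa using hN

theorem Ideal.nonempty {V : Set Ω} (hV : ¬ I.Null V) : V.Nonempty := by
  by_contra h
  rw [not_nonempty_iff_eq_empty] at h
  apply hV
  rw [h]
  refine I.mono ?_ (I.union (fun j : Empty => j.elim) (fun j => j.elim))
  exact empty_subset _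

/-- lines with directions which converge along `l` -/
structure Fam (κ Ω : Type) (l : Filter κ) (ι : Type) where
  a : κ → Ω → ι → ℝ
  v : κ → Ω → ι → ℝ
  a' : Ω → ι → ℝ
  v' : Ω → ι → ℝ
  ha : ∀ ω i, Tendsto (fun k => a k ω i) l (𝓝 (a' ω i))
  hv : ∀ ω i, Tendsto (fun k => v k ω i) l (𝓝 (v' ω i))

variable {κ : Type} {l : Filter κ} {ι : Type}

/-- a point of the line -/
def Fam.pt (F : Fam κ Ω l ι) (k : κ) (ω : Ω) (t : ℝ) : ι → ℝ := fun i => F.a k ω i + t * F.v k ω i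

/-- the projection to some of the coordinates -/
def Fam.res (F : Fam κ Ω l ι) (p : ι → Prop) : Fam κ Ω l {i // p i} where
  a := fun k ω i => F.a k ω i
  v := fun k ω i => F.v k ω i
  a' := fun ω i => F.a' ω i
  v' := fun ω i => F.v' ω i
  ha := fun ω i => F.ha ω i
  hv := fun ω i => F.hv ω i

theorem Fam.res_pt (F : Fam κ Ω l ι) (p : ι → Prop) (k : κ) (ω : Ω) (t : ℝ) :
    (F.res p).pt k ω t = rst p (F.pt k ω t) := rfl

/-- the directions are in general position, up to negligible sets -/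
def Gen (F : Fam κ Ω l ι) (V : Set Ω) : Prop :=
  (∀ i, I.Null (V ∩ {ω | F.v' ω i = 0})) ∧
  ∀ i j, i ≠ j → ∀ ω₀ ∈ V, F.v' ω₀ j ≠ 0 →
    I.Null (V ∩ {ω | F.v' ω i * F.v' ω₀ j = F.v' ω j * F.v' ω₀ i})

variable {I}

theorem Gen.mono {F : Fam κ Ω l ι} {V V' : Set Ω} (h : Gen I F V) (hV : V' ⊆ V) : Gen I F V' :=
  ⟨fun i => I.mono (inter_subset_inter_left _ hV) (h.1 i),
    fun i j hij ω₀ h0 h1 => I.mono (inter_subset_inter_left _ hV) (h.2 i j hij ω₀ (hV h0) h1)⟩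

theorem Gen.res {F : Fam κ Ω l ι} {V : Set Ω} (h : Gen I F V) (p : ι → Prop) :
    Gen I (F.res p) V :=
  ⟨fun i => h.1 i, fun i j hij ω₀ h0 h1 => h.2 i j (fun h => hij (Subtype.ext h)) ω₀ h0 h1⟩

theorem Gen.nonzero [Finite ι] {F : Fam κ Ω l ι} {V : Set Ω} (h : Gen I F V) (hV : ¬ I.Null V) :
    ∃ V0 ⊆ V, ¬ I.Null V0 ∧ ∀ ω ∈ V0, ∀ i, F.v' ω i ≠ 0 := by
  have hc : Countable ι := Finite.to_countable
  refine ⟨V \ ⋃ i, {ω | F.v' ω i = 0}, sdiff_subset, I.diff hV ?_, ?_⟩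
  · rw [inter_iUnion]
    exact I.union _ h.1
  · intro ω hω i hi
    exact hω.2 (mem_iUnion.2 ⟨i, hi⟩)

/-- the segments whose projection to the coordinate `i` contains a suitable rational number -/
theorem common (F : Fam κ Ω l ι) (i : ι) {V : Set Ω} (hV : ¬ I.Null V)
    (hne : ∀ ω ∈ V, F.v' ω i ≠ 0) {α β : ℝ} (hαβ : α < β) :
    ∃ r : ℝ, ¬ I.Null {ω ∈ V | ∃ t ∈ Ioo α β, F.a' ω i + t * F.v' ω i = r} := by
  obtain ⟨r, hr⟩ := I.pigeon hV
    (fun r : ℚ => {ω | ∃ t ∈ Ioo α β, F.a' ω i + t * F.v' ω i = r}) (by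
    intro ω hω
    have hvi := hne ω hω
    have hne' : F.a' ω i + α * F.v' ω i ≠ F.a' ω i + β * F.v' ω i := by
      intro h
      have : (β - α) * F.v' ω i = 0 := by linarith
      rcases mul_eq_zero.1 this with h | h
      · linarith
      · exact hvi h
    rcases lt_or_gt_of_ne hne' with hlt | hlt
    · obtain ⟨r, hr1, hr2⟩ := exists_rat_btwn hlt
      have hpos : 0 < F.v' ω i := by
        by_contra hcon
        push Not at hcon
        nlinarith
      refine mem_iUnion.2 ⟨r, ((r : ℝ) - F.a' ω i) / F.v' ω i, ⟨?_, ?_⟩, ?_⟩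
      · rw [lt_div_iff₀ hpos]; linarith
      · rw [div_lt_iff₀ hpos]; linarith
      · rw [div_mul_cancel₀ _ hvi]; ring
    · obtain ⟨r, hr1, hr2⟩ := exists_rat_btwn hlt
      have hneg : F.v' ω i < 0 := by
        by_contra hcon
        push Not at hcon
        nlinarith
      refine mem_iUnion.2 ⟨r, ((r : ℝ) - F.a' ω i) / F.v' ω i, ⟨?_, ?_⟩, ?_⟩
      · rw [lt_div_iff_of_neg hneg]; linarith
      · rw [div_lt_iff_of_neg hneg]; linarith
      · rw [div_mul_cancel₀ _ hvi]; ring)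
  exact ⟨r, hr⟩

theorem lin_pos {x y q1 q2 t : ℝ} (h1 : 0 < x + q1 * y) (h2 : 0 < x + q2 * y)
    (ht : t ∈ Icc q1 q2) : 0 < x + t * y := by
  rcases le_total 0 y with hy | hy
  · nlinarith [mul_le_mul_of_nonneg_right ht.1 hy]
  · nlinarith [mul_le_mul_of_nonpos_right ht.2 hy]

theorem corner {A V B W C q1 q2 r1 r2 : ℝ}
    (h11 : 0 < (A + q1 * V - (B + r1 * W)) * C) (h12 : 0 < (A + q1 * V - (B + r2 * W)) * C)
    (h21 : 0 < (A + q2 * V - (B + r1 * W)) * C) (h22 : 0 < (A + q2 * V - (B + r2 * W)) * C)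
    {t u : ℝ} (ht : t ∈ Icc q1 q2) (hu : u ∈ Icc r1 r2) :
    0 < (A + t * V - (B + u * W)) * C := by
  have h1 : 0 < (A + q1 * V - (B + u * W)) * C := by
    have := lin_pos (x := (A + q1 * V - B) * C) (y := -(W * C)) (q1 := r1) (q2 := r2) (t := u)
      (by linarith) (by linarith) hu
    linarith
  have h2 : 0 < (A + q2 * V - (B + u * W)) * C := by
    have := lin_pos (x := (A + q2 * V - B) * C) (y := -(W * C)) (q1 := r1) (q2 := r2) (t := u)
      (by linarith) (by linarith) hu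
    linarith
  have := lin_pos (x := (A - (B + u * W)) * C) (y := V * C) (q1 := q1) (q2 := q2) (t := t)
    (by linarith) (by linarith) ht
  linarith

theorem ev_rect {A V B W C : κ → ℝ} {A' V' B' W' C' : ℝ} (hA : Tendsto A l (𝓝 A'))
    (hV : Tendsto V l (𝓝 V')) (hB : Tendsto B l (𝓝 B')) (hW : Tendsto W l (𝓝 W'))
    (hC : Tendsto C l (𝓝 C')) {q1 q2 r1 r2 : ℝ} (hq : q1 ≤ q2) (hr : r1 ≤ r2)
    (h : ∀ t ∈ Icc q1 q2, ∀ u ∈ Icc r1 r2, 0 < (A' + t * V' - (B' + u * W')) * C') :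
    ∀ᶠ k in l, ∀ t ∈ Icc q1 q2, ∀ u ∈ Icc r1 r2,
      0 < (A k + t * V k - (B k + u * W k)) * C k := by
  have hl : ∀ t u : ℝ, Tendsto (fun k => (A k + t * V k - (B k + u * W k)) * C k) l
      (𝓝 ((A' + t * V' - (B' + u * W')) * C')) := fun t u =>
    ((hA.add (hV.const_mul t)).sub (hB.add (hW.const_mul u))).mul hC
  have hq1 : q1 ∈ Icc q1 q2 := ⟨le_rfl, hq⟩
  have hq2 : q2 ∈ Icc q1 q2 := ⟨hq, le_rfl⟩
  have hr1 : r1 ∈ Icc r1 r2 := ⟨le_rfl, hr⟩
  have hr2 : r2 ∈ Icc r1 r2 := ⟨hr, le_rfl⟩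
  filter_upwards [(hl q1 r1).eventually_const_lt (h _ hq1 _ hr1),
    (hl q1 r2).eventually_const_lt (h _ hq1 _ hr2),
    (hl q2 r1).eventually_const_lt (h _ hq2 _ hr1),
    (hl q2 r2).eventually_const_lt (h _ hq2 _ hr2)] with k h11 h12 h21 h22 t ht u hu
  exact corner h11 h12 h21 h22 ht hu

/-- a small rational rectangle inside a rational rectangle -/
theorem shrink {q1 q2 : ℚ} (h : q1 < q2) : ∃ p1 p2 : ℚ, p1 < p2 ∧ q1 < p1 ∧ p2 < q2 ∧
    Icc (p1 : ℝ) p2 ⊆ Ioo (q1 : ℝ) q2 := by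
  refine ⟨(2 * q1 + q2) / 3, (q1 + 2 * q2) / 3, by linarith, by linarith, by linarith, ?_⟩
  intro x hx
  have h' : (q1 : ℝ) < q2 := by exact_mod_cast h
  constructor
  · have := hx.1; push_cast at this; linarith
  · have := hx.2; push_cast at this; linarith

/-- the box with the corners `c` and `d` -/
def box {ι : Type} (c d : ι → ℚ) : Set (ι → ℝ) := {y | ∀ i, (c i : ℝ) < y i ∧ y i < d i}

theorem exists_cd {a' v' x1 x2 : ℝ} (hv : v' ≠ 0) (hx : x1 < x2) :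
    ∃ c d : ℚ, c < d ∧ ((c : ℝ) - a') / v' ∈ Ioo x1 x2 ∧ ((d : ℝ) - a') / v' ∈ Ioo x1 x2 := by
  rcases lt_or_gt_of_ne hv with hneg | hpos
  · obtain ⟨c, hc1, hc2⟩ := exists_rat_btwn
      (show a' + x2 * v' < a' + x1 * v' by nlinarith)
    obtain ⟨d, hd1, hd2⟩ := exists_rat_btwn hc2
    refine ⟨c, d, by exact_mod_cast hd1, ⟨?_, ?_⟩, ⟨?_, ?_⟩⟩
    · rw [lt_div_iff_of_neg hneg]; linarith
    · rw [div_lt_iff_of_neg hneg]; linarith
    · rw [lt_div_iff_of_neg hneg]; linarith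
    · rw [div_lt_iff_of_neg hneg]; linarith
  · obtain ⟨c, hc1, hc2⟩ := exists_rat_btwn
      (show a' + x1 * v' < a' + x2 * v' by nlinarith)
    obtain ⟨d, hd1, hd2⟩ := exists_rat_btwn hc2
    refine ⟨c, d, by exact_mod_cast hd1, ⟨?_, ?_⟩, ⟨?_, ?_⟩⟩
    · rw [lt_div_iff₀ hpos]; linarith
    · rw [div_lt_iff₀ hpos]; linarith
    · rw [lt_div_iff₀ hpos]; linarith
    · rw [div_lt_iff₀ hpos]; linarith

theorem ev_param {a v : κ → ℝ} {a' v' c d x1 x2 : ℝ} (ha : Tendsto a l (𝓝 a'))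
    (hv : Tendsto v l (𝓝 v')) (hv0 : v' ≠ 0) (h1 : (c - a') / v' ∈ Ioo x1 x2)
    (h2 : (d - a') / v' ∈ Ioo x1 x2) :
    ∀ᶠ k in l, v k ≠ 0 ∧ ∀ y ∈ Icc c d, (y - a k) / v k ∈ Ioo x1 x2 := by
  have e0 : ∀ᶠ k in l, v k ≠ 0 := hv.eventually_ne hv0
  have t1 : Tendsto (fun k => (c - a k) / v k) l (𝓝 ((c - a') / v')) :=
    (tendsto_const_nhds.sub ha).div hv hv0
  have t2 : Tendsto (fun k => (d - a k) / v k) l (𝓝 ((d - a') / v')) :=
    (tendsto_const_nhds.sub ha).div hv hv0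
  filter_upwards [e0, t1.eventually (isOpen_Ioo.mem_nhds h1),
    t2.eventually (isOpen_Ioo.mem_nhds h2)] with k k0 k1 k2
  refine ⟨k0, fun y hy => ?_⟩
  rcases lt_or_gt_of_ne k0 with hneg | hpos
  · constructor
    · refine k2.1.trans_le ?_
      exact (div_le_div_right_of_neg hneg).2 (by linarith [hy.2])
    · refine lt_of_le_of_lt ?_ k1.2
      exact (div_le_div_right_of_neg hneg).2 (by linarith [hy.1])
  · constructor
    · refine k1.1.trans_le ?_
      exact (div_le_div_iff_of_pos_right hpos).2 (by linarith [hy.1])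
    · refine lt_of_le_of_lt ?_ k2.2
      exact (div_le_div_iff_of_pos_right hpos).2 (by linarith [hy.2])

end Pool.Agent.V11222.KU
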