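import Pool.Agent.V11222.KU.Loeb
import Pool.Agent.H742R2.Kk.Sphere

/-!
Tubes: elementary geometry.
-/

set_option autoImplicit false

namespace Pool.Agent.V11222.KU

open Set Filter Topology MeasureTheory Pool.Agent.V11160.OP Metric
open scoped ENNReal

/-- `ℝ^n` -/
abbrev EE (n : ℕ) := EuclideanSpace ℝ (Fin n)

/-- The tube with centre `a`, direction `e`, radius `δ` and length `1`. -/
def tube {n : ℕ} (δ : ℝ) (a e : EE n) : Set (EE n) :=
  {y | |inner ℝ (y - a) e| ≤ 1 / 2 ∧ ‖(y - a) - (inner ℝ (y - a) e) • e‖ ≤ δ}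

variable {n : ℕ}

theorem tube_closed (δ : ℝ) (a e : EE n) : IsClosed (tube δ a e) := by
  have h : tube δ a e = {y | |inner ℝ (y - a) e| ≤ 1 / 2} ∩
      {y | ‖(y - a) - (inner ℝ (y - a) e) • e‖ ≤ δ} := rfl
  rw [h]
  refine IsClosed.inter (isClosed_le ?_ continuous_const) (isClosed_le ?_ continuous_const)
  · fun_prop
  · fun_prop

theorem tube_dir {η : ℝ} {e v : EE n} (he : ‖e‖ = 1) (hv : v ∈ tube η e e) :
    ∃ s : ℝ, 1 / 2 ≤ s ∧ s ≤ 3 / 2 ∧ inner ℝ v e = s ∧ ‖v - s • e‖ ≤ η := by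
  obtain ⟨h1, h2⟩ := hv
  have h3 : inner ℝ (v - e) e = inner ℝ v e - 1 := by
    rw [inner_sub_left, real_inner_self_eq_norm_sq, he]; norm_num
  rw [h3] at h1 h2
  refine ⟨inner ℝ v e, ?_, ?_, rfl, ?_⟩
  · linarith [(abs_le.1 h1).1]
  · linarith [(abs_le.1 h1).2]
  · have : v - e - (inner ℝ v e - 1) • e = v - (inner ℝ v e) • e := by
      rw [sub_smul, one_smul]; abel
    rwa [this] at h2

theorem tube_norm {η : ℝ} {e v : EE n} (he : ‖e‖ = 1) (hη : η ≤ 1 / 2) (hv : v ∈ tube η e e) :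
    ‖v‖ ≤ 2 := by
  obtain ⟨s, h1, h2, -, h3⟩ := tube_dir he hv
  have h4 : ‖v‖ ≤ ‖v - s • e‖ + ‖s • e‖ := by
    have := norm_add_le (v - s • e) (s • e)
    rwa [sub_add_cancel] at this
  rw [norm_smul, he, mul_one, Real.norm_eq_abs, abs_of_nonneg (by linarith)] at h4
  linarith

theorem tube_disj {δ : ℝ} (hδ : 0 < δ) {e e' : EE n} (he : ‖e‖ = 1) (he' : ‖e'‖ = 1)
    (hsep : δ ≤ ‖e - e'‖) : Disjoint (tube (δ / 16) e e) (tube (δ / 16) e' e') := by
  rw [Set.disjoint_left]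
  intro v hv hv'
  obtain ⟨s, h1, h2, -, h3⟩ := tube_dir he hv
  obtain ⟨s', h1', h2', -, h3'⟩ := tube_dir he' hv'
  have h4 : ‖s • e - s' • e'‖ ≤ δ / 8 := by
    have h : s • e - s' • e' = (v - s' • e') - (v - s • e) := by abel
    rw [h]
    refine (norm_sub_le _ _).trans ?_
    linarith
  have h5 : |s - s'| ≤ δ / 8 := by
    have h := abs_norm_sub_norm_le (s • e) (s' • e')
    rw [norm_smul, norm_smul, he, he', mul_one, mul_one, Real.norm_eq_abs, Real.norm_eq_abs,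
      abs_of_nonneg (by linarith : 0 ≤ s), abs_of_nonneg (by linarith : 0 ≤ s')] at h
    exact h.trans h4
  have h6 : s * ‖e - e'‖ ≤ δ / 4 := by
    have h : s • (e - e') = (s • e - s' • e') + (s' - s) • e' := by
      rw [smul_sub, sub_smul]; abel
    have h7 : ‖s • (e - e')‖ = s * ‖e - e'‖ := by
      rw [norm_smul, Real.norm_eq_abs, abs_of_nonneg (by linarith : 0 ≤ s)]
    rw [← h7, h]
    refine (norm_add_le _ _).trans ?_
    rw [norm_smul, he', mul_one, Real.norm_eq_abs, abs_sub_comm]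
    linarith
  nlinarith [norm_nonneg (e - e')]

theorem tube_seg {δ : ℝ} (hδ : 0 < δ) {a e v : EE n} (he : ‖e‖ = 1) (hv : v ∈ tube (δ / 16) e e)
    {t : ℝ} (ht : |t| ≤ 1 / 3) : a + t • v ∈ tube δ a e := by
  obtain ⟨s, h1, h2, h0, h3⟩ := tube_dir he hv
  have h4 : a + t • v - a = t • v := by abel
  refine ⟨?_, ?_⟩
  · rw [h4, inner_smul_left, h0]
    simp only [conj_trivial]
    rw [abs_mul, abs_of_nonneg (by linarith : 0 ≤ s)]
    nlinarith [abs_nonneg t]
  · rw [h4, inner_smul_left, h0]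
    simp only [conj_trivial]
    have : t • v - (t * s) • e = t • (v - s • e) := by rw [smul_sub, smul_smul]
    rw [this, norm_smul, Real.norm_eq_abs]
    nlinarith [abs_nonneg t, norm_nonneg (v - s • e)]

theorem tube_thick {δ : ℝ} (hδ : 0 < δ) (hδ1 : δ < 1) {a e x : EE n} (he : ‖e‖ = 1)
    (hx : x ∈ tube δ a e) : ∃ y, ‖x - y‖ ≤ δ ∧ ball y (δ / 4) ⊆ tube δ a e := by
  obtain ⟨h1, h2⟩ := hx
  obtain ⟨u, hu⟩ : ∃ u : ℝ, inner ℝ (x - a) e = u := ⟨_, rfl⟩
  obtain ⟨w, hw⟩ : ∃ w : EE n, (x - a) - u • e = w := ⟨_, rfl⟩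
  rw [hu] at h1 h2
  rw [hw] at h2
  have hee : inner ℝ e e = (1 : ℝ) := by rw [real_inner_self_eq_norm_sq, he]; norm_num
  have hwe : inner ℝ w e = (0 : ℝ) := by
    rw [← hw, inner_sub_left, hu, inner_smul_left, hee]
    simp
  have hu1 := abs_le.1 h1
  refine ⟨a + ((1 - δ / 2) * u) • e + (1 / 2 : ℝ) • w, ?_, ?_⟩
  · have h3 : x - (a + ((1 - δ / 2) * u) • e + (1 / 2 : ℝ) • w) =
        (δ / 2 * u) • e + (1 / 2 : ℝ) • w := by
      have hx : x = a + u • e + w := by rw [← hw]; abel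
      rw [hx]
      module
    rw [h3]
    refine (norm_add_le _ _).trans ?_
    rw [norm_smul, norm_smul, he, mul_one, Real.norm_eq_abs, abs_mul, abs_of_pos (by linarith :
      0 < δ / 2), Real.norm_eq_abs, abs_of_pos (by norm_num : (0 : ℝ) < 1 / 2)]
    nlinarith [abs_nonneg u]
  · intro z hz
    rw [mem_ball, dist_eq_norm] at hz
    obtain ⟨r, hr⟩ : ∃ r : EE n, z - (a + ((1 - δ / 2) * u) • e + (1 / 2 : ℝ) • w) = r := ⟨_, rfl⟩
    rw [hr] at hz
    have hza : z - a = ((1 - δ / 2) * u) • e + (1 / 2 : ℝ) • w + r := by rw [← hr]; abel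
    have hin : inner ℝ (z - a) e = (1 - δ / 2) * u + inner ℝ r e := by
      rw [hza, inner_add_left, inner_add_left, inner_smul_left, inner_smul_left, hwe, hee]
      simp
    have hre : |inner ℝ r e| ≤ δ / 4 := by
      have := abs_real_inner_le_norm r e
      rw [he, mul_one] at this
      linarith
    have hre' := abs_le.1 hre
    refine ⟨?_, ?_⟩
    · rw [hin, abs_le]
      constructor <;> nlinarith
    · have h4 : z - a - (inner ℝ (z - a) e) • e = (1 / 2 : ℝ) • w + r - (inner ℝ r e) • e := by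
        rw [hin, hza]; module
      rw [h4]
      refine (norm_sub_le _ _).trans ?_
      refine (add_le_add_left (norm_add_le _ _) _).trans ?_
      rw [norm_smul, norm_smul, he, mul_one, Real.norm_eq_abs, Real.norm_eq_abs,
        abs_of_pos (by norm_num : (0 : ℝ) < 1 / 2)]
      linarith

/-- the neighbourhood of a union of balls of radius `δ/4` -/
theorem vol_thick (n : ℕ) (C : ℝ) : ∃ M : ℕ, ∀ (δ : ℝ), 0 < δ → ∀ S : Set (EE n),
    (∀ x ∈ S, ∃ y, ‖x - y‖ ≤ δ ∧ ball y (δ / 4) ⊆ S) →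
    volume (thickening (C * δ) S) ≤ M * volume S := by
  obtain ⟨J, -, hJf, hJ⟩ := (isCompact_closedBall (0 : EE n) (C + 1)).finite_cover_balls
    (show (0 : ℝ) < 1 / 4 by norm_num)
  refine ⟨hJf.toFinset.card, ?_⟩
  intro δ hδ S hS
  have hsub : thickening (C * δ) S ⊆ ⋃ τ ∈ hJf.toFinset, (fun x => δ • τ + x) '' S := by
    intro x hx
    obtain ⟨s, hs, hxs⟩ := mem_thickening_iff.1 hx
    obtain ⟨y, hy, hyS⟩ := hS s hs
    have h1 : ‖x - y‖ ≤ (C + 1) * δ := by
      have h : x - y = (x - s) + (s - y) := by abel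
      rw [h]
      refine (norm_add_le _ _).trans ?_
      rw [dist_eq_norm] at hxs
      nlinarith
    have h2 : δ⁻¹ • (x - y) ∈ closedBall (0 : EE n) (C + 1) := by
      rw [mem_closedBall, dist_zero_right, norm_smul, norm_inv, Real.norm_eq_abs, abs_of_pos hδ]
      rw [inv_mul_le_iff₀ hδ]
      linarith
    obtain ⟨τ, hτ, hτ2⟩ := mem_iUnion₂.1 (hJ h2)
    refine mem_iUnion₂.2 ⟨τ, by simpa using hτ, x - δ • τ, hyS ?_, by
      show δ • τ + (x - δ • τ) = x
      abel⟩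
    rw [mem_ball, dist_eq_norm] at hτ2 ⊢
    have h3 : x - δ • τ - y = δ • (δ⁻¹ • (x - y) - τ) := by
      rw [smul_sub, smul_smul, mul_inv_cancel₀ hδ.ne', one_smul]; abel
    rw [h3, norm_smul, Real.norm_eq_abs, abs_of_pos hδ]
    nlinarith
  refine (measure_mono hsub).trans ((measure_biUnion_finset_le _ _).trans ?_)
  rw [Finset.sum_congr rfl (fun τ _ => ?_), Finset.sum_const, nsmul_eq_mul]
  rw [image_add_left, measure_preimage_add]

theorem med_lip {a b c a' b' c' η : ℝ} (h1 : |a - a'| ≤ η) (h2 : |b - b'| ≤ η)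
    (h3 : |c - c'| ≤ η) : |med a b c - med a' b' c'| ≤ η := by
  unfold med
  refine (abs_max_sub_max_le_max _ _ _ _).trans (max_le ?_ ?_)
  · exact (abs_min_sub_min_le_max _ _ _ _).trans (max_le h1 h2)
  · refine (abs_max_sub_max_le_max _ _ _ _).trans (max_le ?_ ?_)
    · exact (abs_min_sub_min_le_max _ _ _ _).trans (max_le h1 h3)
    · exact (abs_min_sub_min_le_max _ _ _ _).trans (max_le h2 h3)

theorem min_lip {a b a' b' η : ℝ} (h1 : |a - a'| ≤ η) (h2 : |b - b'| ≤ η) :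
    |min a b - min a' b'| ≤ η :=
  (abs_min_sub_min_le_max _ _ _ _).trans (max_le h1 h2)

theorem max_lip {a b a' b' η : ℝ} (h1 : |a - a'| ≤ η) (h2 : |b - b'| ≤ η) :
    |max a b - max a' b'| ≤ η :=
  (abs_max_sub_max_le_max _ _ _ _).trans (max_le h1 h2)

theorem med_self (a : ℝ) : med a a a = a := by simp [med]

end Pool.Agent.V11222.KU
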