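import Pool.Agent.V11222.KU.Base
import Pool.Agent.V11222.KO.MedCase

/-!
Sets which are closed under the coordinatewise median up to a small error.
-/

set_option autoImplicit false

namespace Pool.Agent.V11222.KU

open Set Filter Topology Pool.Agent.V11222.KO Pool.Agent.V11160.OP

section

variable {ι : Type}

/-- the coordinates of the segment are on the sides of the point `q` given by `s` -/
def Sd (s : ι → Bool) (a v q : ι → ℝ) (α β : ℝ) : Prop :=
  ∀ i, (s i = true → ∀ t ∈ Ioo α β, 0 < (a i + t * v i - q i) * v i) ∧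
    (s i = false → ∀ t ∈ Ioo α β, (a i + t * v i - q i) * v i < 0)

theorem Sd.mono {s : ι → Bool} {a v q : ι → ℝ} {α β α' β' : ℝ} (h : Sd s a v q α β)
    (h1 : α ≤ α') (h2 : β' ≤ β) : Sd s a v q α' β' := by
  have hs : Ioo α' β' ⊆ Ioo α β := Ioo_subset_Ioo h1 h2
  exact fun i => ⟨fun hi t ht => (h i).1 hi t (hs ht), fun hi t ht => (h i).2 hi t (hs ht)⟩

/-- the rank of a coordinate with respect to a list of sign vectors -/
def rk : List (ι → Bool) → ι → ℕ
  | [], _ => 0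
  | s :: L, i => 2 * rk L i + (if s i then 0 else 1)

theorem rk_inj {i j : ι} : ∀ L : List (ι → Bool), rk L i = rk L j → ∀ s ∈ L, s i = s j := by
  intro L
  induction L with
  | nil => intro _ s hs; simp at hs
  | cons p L ih =>
    intro h s hs
    simp only [rk] at h
    have h1 : rk L i = rk L j ∧ p i = p j := by
      cases hi : p i <;> cases hj : p j <;> simp [hi, hj] at h ⊢ <;> omega
    rcases List.mem_cons.1 hs with rfl | hs
    · exact h1.2
    · exact ih h1.1 s hs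

theorem rk_claim {E : ℕ → Set (ι → ℝ)} (hm : Monotone E)
    (hE : ∀ i, ∀ x ∈ E i, ∀ y ∈ E i, ∀ z ∈ E i, (fun j => med (x j) (y j) (z j)) ∈ E (i + 1))
    {a v : ι → ℝ} {α β : ℝ} (hconst : ∀ t ∈ Ioo α β, (fun i => a i + t * v i) ∈ E 0) :
    ∀ L : List (ι → Bool), (∀ s ∈ L, ∃ q ∈ E 0, Sd s a v q α β) →
    ∀ g : ℕ → ℝ, Monotone g → (∀ x, g x ∈ Ioo α β) →
      (fun i => a i + g (rk L i) * v i) ∈ E L.length := by
  intro L
  induction L with
  | nil =>
    intro _ g _ hg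
    exact hconst (g 0) (hg 0)
  | cons s L ih =>
    intro hL g hmono hg
    have h0 := ih (fun q hq => hL q (List.mem_cons_of_mem _ hq)) (fun x => g (2 * x))
      (fun x y hxy => hmono (by omega)) (fun x => hg _)
    have h1 := ih (fun q hq => hL q (List.mem_cons_of_mem _ hq)) (fun x => g (2 * x + 1))
      (fun x y hxy => hmono (by omega)) (fun x => hg _)
    obtain ⟨q, hqK, hq⟩ := hL s List.mem_cons_self
    have h2 := hE _ _ h0 _ h1 _ (hm (Nat.zero_le _) hqK)
    rw [List.length_cons]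
    convert h2 using 1
    funext k
    have hle : 0 ≤ (a k + g (2 * rk L k + 1) * v k - (a k + g (2 * rk L k) * v k)) * v k := by
      have h3 : g (2 * rk L k) ≤ g (2 * rk L k + 1) := hmono (by omega)
      have h4 : (a k + g (2 * rk L k + 1) * v k - (a k + g (2 * rk L k) * v k)) * v k =
        (g (2 * rk L k + 1) - g (2 * rk L k)) * (v k * v k) := by ring
      rw [h4]
      exact mul_nonneg (sub_nonneg.2 h3) (mul_self_nonneg _)
    cases hD : s k
    · simp only [rk, hD, Bool.false_eq_true, if_false]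
      exact (med_right hle ((hq k).2 hD _ (hg _)) ((hq k).2 hD _ (hg _))).symm
    · simp only [rk, hD, if_true, add_zero]
      exact (med_left hle ((hq k).1 hD _ (hg _)) ((hq k).1 hD _ (hg _))).symm

end

variable {Ω κ : Type} (I : Ideal Ω) {l : Filter κ}

/-- the coordinates `i` and `j` of the line are separated by points of the sets -/
def SepEv {ι : Type} (F : Fam κ Ω l ι) (E : κ → ℕ → Set (ι → ℝ)) (ω : Ω) (i j : ι) (α β : ℝ) :
    Prop :=
  ∃ s : ι → Bool, s i ≠ s j ∧ ∀ᶠ k in l, ∃ q ∈ E k 0, Sd s (F.a k ω) (F.v k ω) q α β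

theorem SepEv.mono {ι : Type} {F : Fam κ Ω l ι} {E : κ → ℕ → Set (ι → ℝ)} {ω : Ω} {i j : ι}
    {α β α' β' : ℝ} (h : SepEv F E ω i j α β) (h1 : α ≤ α') (h2 : β' ≤ β) :
    SepEv F E ω i j α' β' := by
  obtain ⟨s, hs, h3⟩ := h
  refine ⟨s, hs, ?_⟩
  filter_upwards [h3] with k hk
  obtain ⟨q, hq, h4⟩ := hk
  exact ⟨q, hq, h4.mono h1 h2⟩

theorem med_case (ι : Type) [Fintype ι] (E : κ → ℕ → Set (ι → ℝ)) (hEm : ∀ k, Monotone (E k))
    (hE : ∀ k i, ∀ x ∈ E k i, ∀ y ∈ E k i, ∀ z ∈ E k i,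
      (fun j => med (x j) (y j) (z j)) ∈ E k (i + 1))
    (F : Fam κ Ω l ι) (V : Set Ω) (α β : ℝ) (hαβ : α < β) (hV : ¬ I.Null V) (hG : Gen I F V)
    (hseg : ∀ ω ∈ V, ∀ᶠ k in l, ∀ t ∈ Ioo α β, F.pt k ω t ∈ E k 0) :
    ∃ (N : ℕ) (c d : ι → ℚ), (∀ i, c i < d i) ∧ ∀ᶠ k in l, box c d ⊆ E k N := by
  classical
  obtain ⟨V0, hV0V, hV0, hne⟩ := hG.nonzero hV
  -- a segment all of whose pairs of coordinates are separated
  have hsel : ∀ P : Finset (ι × ι), ∃ V' : Set Ω, V' ⊆ V0 ∧ ¬ I.Null V' ∧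
      ∃ α' β' : ℝ, α' < β' ∧ α ≤ α' ∧ β' ≤ β ∧ ∀ ω ∈ V', ∀ e ∈ P, e.1 ≠ e.2 →
        SepEv F E ω e.1 e.2 α' β' := by
    intro P
    induction P using Finset.induction_on with
    | empty => exact ⟨V0, subset_rfl, hV0, α, β, hαβ, le_rfl, le_rfl, by simp⟩
    | insert e P _ ih =>
      obtain ⟨V', hV'0, hV', α', β', hαβ', hα', hβ', hP⟩ := ih
      by_cases he : e.1 = e.2
      · refine ⟨V', hV'0, hV', α', β', hαβ', hα', hβ', ?_⟩
        intro v hv e' he' hne'
        rcases Finset.mem_insert.1 he' with rfl | he'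
        · exact absurd he hne'
        · exact hP v hv e' he' hne'
      obtain ⟨r, hr⟩ := common F e.1 hV' (fun v hv => hne v (hV'0 hv) e.1) hαβ'
      obtain ⟨w, hw⟩ := I.nonempty hr
      have hw0 := hne w (hV'0 hw.1)
      have hV2 : ¬ I.Null ({ω ∈ V' | ∃ t ∈ Ioo α' β', F.a' ω e.1 + t * F.v' ω e.1 = r} \
          {ω | F.v' ω e.1 * F.v' w e.2 = F.v' ω e.2 * F.v' w e.1}) :=
        I.diff hr ((hG.mono (fun ω hω => hV0V (hV'0 hω.1))).2 e.1 e.2 he w hw (hw0 e.2))
      obtain ⟨⟨q1, q2⟩, hdata⟩ := I.pigeon hV2 (fun d : ℚ × ℚ => {ω : Ω | d.1 < d.2 ∧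
          α' ≤ d.1 ∧ (d.2 : ℝ) ≤ β' ∧ SepEv F E ω e.1 e.2 d.1 d.2}) (by
        rintro v ⟨hv1, hv2⟩
        have hv0 := hne v (hV'0 hv1.1)
        obtain ⟨q1, q2, r1, r2, h1, h2, h3, h4, h5, h6, h7, h8⟩ := split (i := e.1) (j := e.2)
          (a := F.a' v) (b := F.a' w) hv0 (F.v' v) hv0 hv2
          (by
            obtain ⟨t0, ht0, e1⟩ := hv1.2
            obtain ⟨u0, hu0, e2⟩ := hw.2
            exact ⟨t0, ht0, u0, hu0, by rw [e1, e2]⟩)
        obtain ⟨p1, p2, hp12, hp1, hp2, hp⟩ := shrink h1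
        obtain ⟨um, hum⟩ : ∃ um, um ∈ Ioo (r1 : ℝ) r2 := nonempty_Ioo.2 (by exact_mod_cast h2)
        have hp12' : (p1 : ℝ) ≤ p2 := by exact_mod_cast hp12.le
        have hq1p : (q1 : ℝ) ≤ p1 := by exact_mod_cast hp1.le
        have hq2p : (p2 : ℝ) ≤ q2 := by exact_mod_cast hp2.le
        have htm : (p1 : ℝ) ∈ Ioo (q1 : ℝ) q2 := hp ⟨le_rfl, hp12'⟩
        obtain ⟨s, hs⟩ : ∃ s : ι → Bool, ∀ j, s j = true ↔
            0 < (F.a' v j + p1 * F.v' v j - (F.a' w j + um * F.v' w j)) * F.v' v j :=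
          ⟨fun j => decide (0 < (F.a' v j + p1 * F.v' v j - (F.a' w j + um * F.v' w j)) *
            F.v' v j), fun j => by simp⟩
        refine mem_iUnion.2 ⟨(p1, p2), hp12, h3.trans hq1p, hq2p.trans h4, s, ?_, ?_⟩
        · intro hss
          rcases h8 with h8 | h8
          · have a1 : s e.1 = true := (hs _).2 (h8.1 _ htm _ hum)
            rw [hss] at a1
            have := (hs _).1 a1
            linarith [h8.2 _ htm _ hum]
          · have a1 : s e.2 = true := (hs _).2 (h8.2 _ htm _ hum)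
            rw [← hss] at a1
            have := (hs _).1 a1
            linarith [h8.1 _ htm _ hum]
        · have hall : ∀ j, ∀ᶠ k in l,
              (s j = true → ∀ t ∈ Ioo (p1 : ℝ) p2,
                0 < (F.a k v j + t * F.v k v j - F.pt k w um j) * F.v k v j) ∧
              (s j = false → ∀ t ∈ Ioo (p1 : ℝ) p2,
                (F.a k v j + t * F.v k v j - F.pt k w um j) * F.v k v j < 0) := by
            intro j
            rcases h7 j with h7 | h7
            · have hj : s j = true := (hs j).2 (h7 _ htm _ hum)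
              filter_upwards [ev_rect (F.ha v j) (F.hv v j) (F.ha w j) (F.hv w j) (F.hv v j)
                hp12' (le_refl um) (fun t ht u hu => by
                  have : u = um := le_antisymm hu.2 hu.1
                  rw [this]; exact h7 t (hp ht) um hum)] with k hk
              refine ⟨fun _ t ht => ?_, fun h => by rw [hj] at h; cases h⟩
              exact hk t ⟨ht.1.le, ht.2.le⟩ um ⟨le_rfl, le_rfl⟩
            · have hj : ¬ s j = true := fun h => by
                have := (hs j).1 h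
                linarith [h7 _ htm _ hum]
              filter_upwards [ev_rect (F.ha v j) (F.hv v j) (F.ha w j) (F.hv w j)
                ((F.hv v j).neg)
                hp12' (le_refl um) (fun t ht u hu => by
                  have : u = um := le_antisymm hu.2 hu.1
                  rw [this]
                  have := h7 t (hp ht) um hum
                  linarith)] with k hk
              refine ⟨fun h => absurd h hj, fun _ t ht => ?_⟩
              have := hk t ⟨ht.1.le, ht.2.le⟩ um ⟨le_rfl, le_rfl⟩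
              simp only [Fam.pt]
              linarith
          filter_upwards [eventually_all.2 hall, hseg w (hV0V (hV'0 hw.1))] with k k1 k2
          refine ⟨F.pt k w um, k2 um ⟨(hα'.trans h5).trans_lt hum.1,
            hum.2.trans_le (h6.trans hβ')⟩, k1⟩)
      obtain ⟨v00, hv00⟩ := I.nonempty hdata
      obtain ⟨hq12, hq1, hq2, -⟩ := hv00.2
      refine ⟨_, ?_, hdata, q1, q2, by exact_mod_cast hq12, hα'.trans hq1, hq2.trans hβ', ?_⟩
      · rintro v ⟨⟨hv1, -⟩, -⟩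
        exact hV'0 hv1.1
      · rintro v ⟨⟨hv1, -⟩, hv3⟩ e' he' hne'
        rcases Finset.mem_insert.1 he' with rfl | he'
        · exact hv3.2.2.2
        · exact (hP v hv1.1 e' he' hne').mono hq1 hq2
  obtain ⟨V', hV'0, hV', α', β', hαβ', hα', hβ', hP⟩ := hsel Finset.univ
  obtain ⟨v, hv⟩ := I.nonempty hV'
  have hv0 := hne v (hV'0 hv)
  have hsep : ∀ e : ι × ι, ∃ s : ι → Bool, e.1 ≠ e.2 → s e.1 ≠ s e.2 ∧
      ∀ᶠ k in l, ∃ q ∈ E k 0, Sd s (F.a k v) (F.v k v) q α' β' := by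
    intro e
    by_cases he : e.1 = e.2
    · exact ⟨fun _ => true, fun h => absurd he h⟩
    · obtain ⟨s, hs⟩ := hP v hv e (Finset.mem_univ _) he
      exact ⟨s, fun _ => hs⟩
  choose sf hsf using hsep
  obtain ⟨L, hL⟩ : ∃ L : List (ι → Bool),
      L = (Finset.univ.filter fun e : ι × ι => e.1 ≠ e.2).toList.map sf := ⟨_, rfl⟩
  have hLmem : ∀ᶠ k in l, ∀ s ∈ L, ∃ q ∈ E k 0, Sd s (F.a k v) (F.v k v) q α' β' := by
    have h1 : ∀ e : ι × ι, ∀ᶠ k in l, e.1 ≠ e.2 →
        ∃ q ∈ E k 0, Sd (sf e) (F.a k v) (F.v k v) q α' β' := by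
      intro e
      by_cases he : e.1 = e.2
      · exact Eventually.of_forall fun k h => absurd he h
      · exact (hsf e he).2.mono fun k hk _ => hk
    filter_upwards [eventually_all.2 h1] with k hk s hs
    rw [hL, List.mem_map] at hs
    obtain ⟨e, he, rfl⟩ := hs
    exact hk e (by simpa using he)
  obtain ⟨ρ, hρ⟩ : ∃ ρ : ι → ℕ, ρ = rk L := ⟨_, rfl⟩
  have hinj : Function.Injective ρ := by
    intro i j hij
    by_contra hne'
    rw [hρ] at hij
    have hq : sf (i, j) ∈ L := by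
      rw [hL, List.mem_map]
      exact ⟨(i, j), by simpa using hne', rfl⟩
    exact (hsf (i, j) hne').1 (rk_inj L hij _ hq)
  obtain ⟨ε, hε⟩ : ∃ ε : ℕ → ℝ, ε = fun x : ℕ => β' - (β' - α') / ((x : ℝ) + 2) := ⟨_, rfl⟩
  have hεI : ∀ x, ε x ∈ Ioo α' β' := by
    intro x
    rw [hε]
    have h1 : (0 : ℝ) < (x : ℝ) + 2 := by positivity
    have h2 : (0 : ℝ) < β' - α' := by linarith
    have hx : (0 : ℝ) ≤ x := Nat.cast_nonneg x
    constructor
    · show α' < β' - (β' - α') / ((x : ℝ) + 2)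
      have : (β' - α') / ((x : ℝ) + 2) < β' - α' := by
        rw [div_lt_iff₀ h1]; nlinarith
      linarith
    · show β' - (β' - α') / ((x : ℝ) + 2) < β'
      have : 0 < (β' - α') / ((x : ℝ) + 2) := by positivity
      linarith
  have hεlt : ∀ x, ε x < ε (x + 1) := by
    intro x
    rw [hε]
    show β' - (β' - α') / ((x : ℝ) + 2) < β' - (β' - α') / (((x + 1 : ℕ) : ℝ) + 2)
    have h2 : (0 : ℝ) < β' - α' := by linarith
    have h3 : (β' - α') / (((x + 1 : ℕ) : ℝ) + 2) < (β' - α') / ((x : ℝ) + 2) := by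
      apply div_lt_div_of_pos_left h2 (by positivity)
      push_cast; linarith
    linarith
  have hcd : ∀ i, ∃ c d : ℚ, c < d ∧ ((c : ℝ) - F.a' v i) / F.v' v i ∈ Ioo (ε (ρ i)) (ε (ρ i + 1)) ∧
      ((d : ℝ) - F.a' v i) / F.v' v i ∈ Ioo (ε (ρ i)) (ε (ρ i + 1)) := fun i =>
    exists_cd (hv0 i) (hεlt (ρ i))
  choose c d hcd h1 h2 using hcd
  refine ⟨L.length, c, d, hcd, ?_⟩
  filter_upwards [hLmem, hseg v (hV0V (hV'0 hv)),
    eventually_all.2 fun i => ev_param (F.ha v i) (F.hv v i) (hv0 i) (h1 i) (h2 i)]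
    with k k1 k2 k3 y hy
  obtain ⟨τ, hτ⟩ : ∃ τ : ι → ℝ, τ = fun i => (y i - F.a k v i) / F.v k v i := ⟨_, rfl⟩
  have hτI : ∀ i, ε (ρ i) < τ i ∧ τ i < ε (ρ i + 1) := by
    intro i
    rw [hτ]
    exact (k3 i).2 (y i) ⟨(hy i).1.le, (hy i).2.le⟩
  obtain ⟨g, hg⟩ : ∃ g : ℕ → ℝ, g = fun x => if h : ∃ k, ρ k = x then τ h.choose else ε x :=
    ⟨_, rfl⟩
  have hgρ : ∀ k, g (ρ k) = τ k := by
    intro k
    have hex : ∃ k', ρ k' = ρ k := ⟨k, rfl⟩
    rw [hg]
    simp only [dif_pos hex]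
    rw [hinj hex.choose_spec]
  have hgI : ∀ x, ε x ≤ g x ∧ g x ≤ ε (x + 1) := by
    intro x
    by_cases h : ∃ k, ρ k = x
    · obtain ⟨k, rfl⟩ := h
      rw [hgρ]
      exact ⟨(hτI k).1.le, (hτI k).2.le⟩
    · rw [hg]
      simp only [dif_neg h]
      exact ⟨le_rfl, (hεlt x).le⟩
  have hmono : Monotone g := monotone_nat_of_le_succ fun x => (hgI x).2.trans (hgI (x + 1)).1
  have h3 := rk_claim (hEm k) (hE k) (a := F.a k v) (v := F.v k v) (α := α') (β := β')
    (fun t ht => k2 t ⟨hα'.trans_lt ht.1, ht.2.trans_le hβ'⟩) L k1 g hmono (fun x =>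
      ⟨(hεI x).1.trans_le (hgI x).1, (hgI x).2.trans_lt (hεI (x + 1)).2⟩)
  rw [← hρ] at h3
  convert h3 using 1
  funext i
  rw [hgρ, hτ]
  simp only
  rw [div_mul_cancel₀ _ (k3 i).1]
  ring

end Pool.Agent.V11222.KU
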