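import Pool.Agent.V11222.KU.Max
import Pool.Agent.V11222.KU.Med

/-!
Negligible sets of sequences of directions, and the uniform theorem.
-/

set_option autoImplicit false

namespace Pool.Agent.V11222.KU

open Set Filter Topology MeasureTheory Pool.Agent.V11222.KO Pool.Agent.V11160.OP
open scoped ENNReal

section loeb

variable {X : Type} [MeasurableSpace X] (μ : Measure X) (U : Filter ℕ) (V : ℕ → Set X)

/-- a set of sequences is negligible if it is covered by countably many products of sets of small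
total measure -/
def loeb : Ideal {ω : ℕ → X // ∀ k, ω k ∈ V k} where
  Null S := ∀ ε : ℝ≥0∞, 0 < ε → ∃ (J : Type) (_ : Countable J) (B : J → ℕ → Set X) (c : J → ℝ≥0∞),
    (∀ ω ∈ S, ∃ j, ∀ᶠ k in U, ω.1 k ∈ B j k) ∧ (∀ j, ∀ᶠ k in U, μ (B j k ∩ V k) ≤ c j) ∧
      ∑' j, c j ≤ ε
  mono := by
    intro S T hST hT ε hε
    obtain ⟨J, hJ, B, c, h1, h2, h3⟩ := hT ε hε
    exact ⟨J, hJ, B, c, fun ω hω => h1 ω (hST hω), h2, h3⟩
  union := by
    intro J hJ S hS ε hε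
    obtain ⟨δ, hδ, hδε⟩ := ENNReal.exists_pos_sum_of_countable hε.ne' J
    choose K hK B c h1 h2 h3 using fun j => hS j (δ j) (by exact_mod_cast hδ j)
    refine ⟨Σ j, K j, inferInstance, fun p => B p.1 p.2, fun p => c p.1 p.2, ?_,
      fun p => h2 p.1 p.2, ?_⟩
    · intro ω hω
      obtain ⟨j, hj⟩ := mem_iUnion.1 hω
      obtain ⟨i, hi⟩ := h1 j ω hj
      exact ⟨⟨j, i⟩, hi⟩
    · rw [ENNReal.tsum_sigma]
      exact (ENNReal.tsum_le_tsum h3).trans hδε.le

theorem loeb_univ (hU : U ≤ atTop) [U.NeBot] {c1 : ℝ≥0∞} (h0 : c1 ≠ 0) (h1 : c1 ≠ ∞)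
    (h : ∀ k, c1 ≤ μ (V k)) : ¬ (loeb μ U V).Null univ := by
  intro hN
  obtain ⟨J, hJ, B, c, hB, hc, hsum⟩ := hN (c1 / 2) (ENNReal.div_pos h0 (by simp))
  have hlt : c1 / 2 < c1 := ENNReal.half_lt_self h0 h1
  let _ := Encodable.ofCountable J
  classical
  obtain ⟨P, hP⟩ : ∃ P : ℕ → ℕ → Prop, ∀ n k, P n k ↔
      ∀ j : J, Encodable.encode j < n → μ (B j k ∩ V k) ≤ c j := ⟨_, fun n k => Iff.rfl⟩
  have hPm : ∀ k, P (Nat.findGreatest (fun n => P n k) k) k := fun k =>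
    Nat.findGreatest_spec (P := fun n => P n k) (Nat.zero_le _) ((hP 0 k).2 fun j hj => by omega)
  have hex : ∀ k, ∃ x ∈ V k, ∀ j : J, Encodable.encode j < Nat.findGreatest (fun n => P n k) k →
      x ∉ B j k := by
    intro k
    by_contra hcon
    push Not at hcon
    have hsub : V k ⊆ ⋃ j : J, (if Encodable.encode j < Nat.findGreatest (fun n => P n k) k then
        B j k ∩ V k else ∅) := by
      intro x hx
      obtain ⟨j, hj, hxj⟩ := hcon x hx
      refine mem_iUnion.2 ⟨j, ?_⟩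
      rw [if_pos hj]
      exact ⟨hxj, hx⟩
    have h2 : μ (V k) ≤ ∑' j, c j := by
      refine (measure_mono hsub).trans ((measure_iUnion_le _).trans (ENNReal.tsum_le_tsum ?_))
      intro j
      split_ifs with hj
      · exact (hP _ k).1 (hPm k) j hj
      · simp
    exact absurd ((h k).trans (h2.trans hsum)) (not_le.2 hlt)
  choose ω hωV hωB using hex
  obtain ⟨j, hj⟩ := hB ⟨ω, hωV⟩ (mem_univ _)
  have hfin : {i : J | Encodable.encode i < Encodable.encode j + 1}.Finite :=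
    (Set.finite_lt_nat _).preimage (Encodable.encode_injective.injOn)
  have hev : ∀ᶠ k in U, P (Encodable.encode j + 1) k := by
    have := (Filter.eventually_all_finite hfin (l := U)
      (p := fun i k => μ (B i k ∩ V k) ≤ c i)).2 (fun i _ => hc i)
    filter_upwards [this] with k hk
    exact (hP _ _).2 fun i hi => hk i hi
  have hge : ∀ᶠ k in U, Encodable.encode j + 1 ≤ k := hU (eventually_ge_atTop _)
  obtain ⟨k, h3, h4, h5⟩ := (hj.and (hev.and hge)).exists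
  have h6 : Encodable.encode j + 1 ≤ Nat.findGreatest (fun n => P n k) k :=
    Nat.le_findGreatest h5 h4
  exact hωB k j (by omega) h3

/-- sequences on which a function tends to zero -/
theorem loeb_null {W : Set X} (hW : MeasurableSet W) (hWf : μ W ≠ ∞) (hVW : ∀ k, V k ⊆ W)
    {φ : X → ℝ} (hφ : Measurable φ) (h0 : μ {x | φ x = 0} = 0)
    {S : Set {ω : ℕ → X // ∀ k, ω k ∈ V k}}
    (hS : ∀ ω ∈ S, Tendsto (fun k => φ (ω.1 k)) U (𝓝 0)) : (loeb μ U V).Null S := by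
  intro ε hε
  obtain ⟨s, hs⟩ : ∃ s : ℕ → Set X,
      s = fun m : ℕ => {x | |φ x| ≤ 1 / ((m : ℝ) + 1)} ∩ W := ⟨_, rfl⟩
  have hsm : ∀ m, MeasurableSet (s m) := by
    intro m
    rw [hs]
    exact (measurableSet_le hφ.norm measurable_const).inter hW
  have hanti : Antitone s := by
    intro m m' hmm x hx
    rw [hs] at hx ⊢
    have h1 : |φ x| ≤ 1 / ((m' : ℝ) + 1) := hx.1
    have h2 : (m : ℝ) ≤ m' := by exact_mod_cast hmm
    have h3 : 1 / ((m' : ℝ) + 1) ≤ 1 / ((m : ℝ) + 1) :=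
      one_div_le_one_div_of_le (by positivity) (by linarith)
    exact ⟨h1.trans h3, hx.2⟩
  have hfin : ∃ m, μ (s m) ≠ ∞ := ⟨0, ne_top_of_le_ne_top hWf (measure_mono (by
    rw [hs]; exact inter_subset_right))⟩
  have hlim := tendsto_measure_iInter_atTop (μ := μ) (fun m => (hsm m).nullMeasurableSet) hanti hfin
  have hzero : μ (⋂ m, s m) = 0 := by
    refine measure_mono_null ?_ h0
    intro x hx
    have hx' : ∀ m : ℕ, |φ x| ≤ 1 / ((m : ℝ) + 1) := fun m => by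
      have := mem_iInter.1 hx m
      rw [hs] at this
      exact this.1
    have h2 : |φ x| ≤ 0 := ge_of_tendsto' tendsto_one_div_add_atTop_nhds_zero_nat hx'
    exact abs_nonpos_iff.1 h2
  rw [hzero] at hlim
  obtain ⟨m, hm⟩ := (hlim.eventually (gt_mem_nhds hε)).exists
  refine ⟨Unit, inferInstance, fun _ _ => {x | |φ x| ≤ 1 / ((m : ℝ) + 1)}, fun _ => ε, ?_, ?_, ?_⟩
  · intro ω hω
    refine ⟨(), ?_⟩
    have hpos : (0 : ℝ) < 1 / ((m : ℝ) + 1) := by positivity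
    have := (hS ω hω).abs
    rw [abs_zero] at this
    filter_upwards [this.eventually (gt_mem_nhds hpos)] with k hk
    exact le_of_lt hk
  · intro _
    refine Eventually.of_forall fun k => ?_
    refine le_trans (measure_mono ?_) hm.le
    rw [hs]
    exact inter_subset_inter_right _ (hVW k)
  · simp

end loeb

/-- limits along ultrafilters -/
theorem ulim (U : Ultrafilter ℕ) {f : ℕ → ℝ} {R : ℝ} (h : ∀ k, |f k| ≤ R) :
    ∃ x, Tendsto f U (𝓝 x) := by
  obtain ⟨x, -, hx⟩ := (isCompact_Icc (a := -R) (b := R)).ultrafilter_le_nhds (U.map f) (by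
    rw [le_principal_iff, Ultrafilter.coe_map, mem_map]
    exact univ_mem' fun k => abs_le.1 (h k))
  exact ⟨x, hx⟩

/-- closure, with an increase of the index, under the minimum, the maximum or the median -/
def ClE {ι : Type} (ty : Fin 3) (E : ℕ → Set (ι → ℝ)) : Prop :=
  (ty = 0 → ∀ i, ∀ x ∈ E i, ∀ y ∈ E i, x ⊓ y ∈ E (i + 1)) ∧
  (ty = 1 → ∀ i, ∀ x ∈ E i, ∀ y ∈ E i, x ⊔ y ∈ E (i + 1)) ∧
  (ty = 2 → ∀ i, ∀ x ∈ E i, ∀ y ∈ E i, ∀ z ∈ E i, (fun j => med (x j) (y j) (z j)) ∈ E (i + 1))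

theorem cl_case {Ω κ : Type} (I : Ideal Ω) {l : Filter κ} (ι : Type) [Fintype ι] [DecidableEq ι]
    [Nonempty ι] (ty : Fin 3)
    (E : κ → ℕ → Set (ι → ℝ)) (hEm : ∀ k, Monotone (E k)) (hE : ∀ k, ClE ty (E k))
    (F : Fam κ Ω l ι) (V : Set Ω) (α β : ℝ) (hαβ : α < β) (hV : ¬ I.Null V) (hG : Gen I F V)
    (hseg : ∀ ω ∈ V, ∀ᶠ k in l, ∀ t ∈ Ioo α β, F.pt k ω t ∈ E k 0) :
    ∃ (N : ℕ) (c d : ι → ℚ), (∀ i, c i < d i) ∧ ∀ᶠ k in l, box c d ⊆ E k N := by
  match ty with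
  | 0 => exact min_case I ι E hEm (fun k => (hE k).1 rfl) F V α β hαβ hV hG hseg
  | 1 => exact max_case I _ ι rfl E hEm (fun k => (hE k).2.1 rfl) F V α β hαβ hV hG hseg
  | 2 => exact med_case I ι E hEm (fun k => (hE k).2.2 rfl) F V α β hαβ hV hG hseg

/-- **The uniform theorem.** -/
theorem uniform (U : Ultrafilter ℕ) (hU : (U : Filter ℕ) ≤ atTop) (ι : Type) [Fintype ι]
    [DecidableEq ι] [Nonempty ι] {R : ℝ} {c1 : ℝ≥0∞} (hc0 : c1 ≠ 0) (hc1 : c1 ≠ ∞)
    (V : ℕ → Set (ι → ℝ)) (hVR : ∀ k, ∀ v ∈ V k, ∀ i, |v i| ≤ R) (hV : ∀ k, c1 ≤ volume (V k))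
    (a : ℕ → (ι → ℝ) → ι → ℝ) (ha : ∀ k, ∀ v ∈ V k, ∀ i, |a k v i| ≤ R)
    (E : ℕ → ℕ → Set (ι → ℝ)) (hEm : ∀ k, Monotone (E k)) (hE : ∀ k, ∃ ty, ClE ty (E k))
    {α β : ℝ} (hαβ : α < β)
    (hseg : ∀ k, ∀ v ∈ V k, ∀ t ∈ Ioo α β, (fun i => a k v i + t * v i) ∈ E k 0) :
    ∃ (N : ℕ) (c d : ι → ℚ), (∀ i, c i < d i) ∧ ∀ᶠ k in (U : Filter ℕ), box c d ⊆ E k N := by
  classical
  choose ty hty using hE
  -- the type is constant
  obtain ⟨T, hT⟩ : ∃ T : Fin 3, ∀ᶠ k in (U : Filter ℕ), ty k = T := by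
    obtain ⟨T, hT⟩ := Ultrafilter.eq_pure_of_finite (U.map ty)
    refine ⟨T, ?_⟩
    have h1 : ({T} : Set (Fin 3)) ∈ U.map ty := by
      rw [hT]; exact Ultrafilter.mem_pure.2 rfl
    exact h1
  obtain ⟨E', hE'⟩ : ∃ E' : ℕ → ℕ → Set (ι → ℝ), E' = fun k i => if ty k = T then E k i else univ :=
    ⟨_, rfl⟩
  have hEm' : ∀ k, Monotone (E' k) := by
    intro k i j hij
    rw [hE']
    by_cases hk : ty k = T
    · simp only [if_pos hk]; exact hEm k hij
    · simp only [if_neg hk]; exact le_refl _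
  have hEcl' : ∀ k, ClE T (E' k) := by
    intro k
    by_cases hk : ty k = T
    · have : E' k = E k := by
        rw [hE']; funext i; simp only [if_pos hk]
      rw [this, ← hk]
      exact hty k
    · have : E' k = fun _ => univ := by
        rw [hE']; funext i; simp only [if_neg hk]
      rw [this]
      exact ⟨fun _ _ _ _ _ _ => mem_univ _, fun _ _ _ _ _ _ => mem_univ _,
        fun _ _ _ _ _ _ _ _ => mem_univ _⟩
  have hlv : ∀ (ω : {ω : ℕ → (ι → ℝ) // ∀ k, ω k ∈ V k}) (i : ι),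
      ∃ x, Tendsto (fun k => ω.1 k i) U (𝓝 x) := fun ω i =>
    ulim U fun k => hVR k _ (ω.2 k) i
  have hla : ∀ (ω : {ω : ℕ → (ι → ℝ) // ∀ k, ω k ∈ V k}) (i : ι),
      ∃ x, Tendsto (fun k => a k (ω.1 k) i) U (𝓝 x) := fun ω i =>
    ulim U fun k => ha k _ (ω.2 k) i
  choose v' hv' using hlv
  choose a' ha' using hla
  obtain ⟨F, hF⟩ : ∃ F : Fam ℕ {ω : ℕ → (ι → ℝ) // ∀ k, ω k ∈ V k} (U : Filter ℕ) ι,
      F = ⟨fun k ω i => a k (ω.1 k) i, fun k ω i => ω.1 k i, a', v', ha', hv'⟩ := ⟨_, rfl⟩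
  obtain ⟨W, hW⟩ : ∃ W : Set (ι → ℝ), W = Icc (fun _ => -R) (fun _ => R) := ⟨_, rfl⟩
  have hWm : MeasurableSet W := by rw [hW]; exact measurableSet_Icc
  have hWf : volume W ≠ ∞ := by rw [hW]; exact isCompact_Icc.measure_ne_top
  have hVW : ∀ k, V k ⊆ W := by
    intro k v hv
    rw [hW]
    exact ⟨fun i => (abs_le.1 (hVR k v hv i)).1, fun i => (abs_le.1 (hVR k v hv i)).2⟩
  have hG : Gen (loeb volume U V) F univ := by
    refine ⟨fun i => ?_, fun i j hij ω₀ _ h1 => ?_⟩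
    · refine loeb_null volume U V hWm hWf hVW (φ := fun v => v i) (measurable_pi_apply i)
        (null_coord i) ?_
      rintro ω ⟨-, hω⟩
      have h1 := hv' ω i
      have h2 : v' ω i = 0 := by rw [hF] at hω; exact hω
      rwa [h2] at h1
    · have h1' : v' ω₀ j ≠ 0 := by rw [hF] at h1; exact h1
      refine loeb_null volume U V hWm hWf hVW
        (φ := fun v => v i * v' ω₀ j - v j * v' ω₀ i) (by fun_prop) ?_ ?_
      · have h2 := null_parallel hij (w := v' ω₀) h1'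
        have e : {x : ι → ℝ | x i * v' ω₀ j - x j * v' ω₀ i = 0} =
            {v | v i * v' ω₀ j = v j * v' ω₀ i} := by
          ext x; exact sub_eq_zero
        rw [e]; exact h2
      · rintro ω ⟨-, hω⟩
        have h2 : v' ω i * v' ω₀ j - v' ω j * v' ω₀ i = 0 := by
          rw [hF] at hω; exact sub_eq_zero.2 hω
        have h3 := ((hv' ω i).mul_const (v' ω₀ j)).sub ((hv' ω j).mul_const (v' ω₀ i))
        rwa [h2] at h3
  obtain ⟨N, c, d, hcd, hbox⟩ := cl_case (loeb volume U V) ι T E' hEm' hEcl' F univ α β hαβ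
    (loeb_univ volume U V hU hc0 hc1 hV) hG (by
      intro ω _
      refine Eventually.of_forall fun k t ht => ?_
      have h1 := hseg k _ (ω.2 k) t ht
      rw [hE', hF]
      by_cases hk : ty k = T
      · simp only [if_pos hk]; exact h1
      · simp only [if_neg hk]; exact mem_univ _)
  refine ⟨N, c, d, hcd, ?_⟩
  filter_upwards [hbox, hT] with k hk hkT
  rw [hE'] at hk
  simpa only [if_pos hkT] using hk

end Pool.Agent.V11222.KU
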