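import Pool.Agent.V11222.KU.Tubes

/-!
The main theorem about families of tubes, in coordinates.
-/

set_option autoImplicit false

namespace Pool.Agent.V11222.KU

open Set Filter Topology MeasureTheory Pool.Agent.V11160.OP Metric
open scoped ENNReal

theorem box_isOpen {ι : Type} [Fintype ι] (q r : ι → ℚ) : IsOpen (box q r) := by
  have : box q r = ⋂ k, {y : ι → ℝ | (q k : ℝ) < y k} ∩ {y : ι → ℝ | y k < r k} := by
    ext y; simp [box]
  rw [this]
  exact isOpen_iInter_of_finite fun k =>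
    (isOpen_lt continuous_const (continuous_apply k)).inter
      (isOpen_lt (continuous_apply k) continuous_const)

theorem main (m : ℕ) (L : EE (m + 1) ≃L[ℝ] (Fin (m + 1) → ℝ)) (r R ω : ℝ) (hr : 0 < r)
    (hω : 0 < ω) : ∃ c : ℝ, 0 < c ∧ ∃ C : ℝ, 0 < C ∧ ∀ δ η : ℝ, 0 < δ → δ < 1 → 0 < η →
      ∀ (ι : Type) [Fintype ι] (a e : ι → EE (m + 1)), (∀ i, ‖e i‖ = 1) → (∀ i, ‖a i‖ ≤ R) →
      (∀ i j, i ≠ j → δ ≤ ‖e i - e j‖) → ω ≤ (Fintype.card ι : ℝ) * δ ^ m →
      ∀ S : Set (EE (m + 1)), (∀ i, tube δ (a i) (e i) ⊆ S) → (∀ p ∈ S, ClAt L p r η S) →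
      ∃ z, ball z c ⊆ thickening (C * η) S := by
  classical
  by_contra hcon
  push Not at hcon
  have hcon' := fun k : ℕ => hcon (1 / ((k : ℝ) + 1)) (by positivity) ((k : ℝ) + 1) (by positivity)
  clear hcon
  choose δ η hδ hδ1 hη ι hι a e he ha hsep hcard S hS hcl hno using hcon'
  -- nonempty
  have hne : ∀ k, Nonempty (ι k) := by
    intro k
    by_contra h
    rw [not_nonempty_iff] at h
    have h1 := hcard k
    rw [Fintype.card_eq_zero, Nat.cast_zero, zero_mul] at h1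
    linarith
  have hctr : ∀ k i, a k i ∈ S k := by
    intro k i
    refine hS k i ⟨?_, ?_⟩
    · rw [sub_self, inner_zero_left, abs_zero]; norm_num
    · rw [sub_self, inner_zero_left, zero_smul, sub_zero, norm_zero]; exact (hδ k).le
  -- `η` tends to `0`
  have hηs : ∀ k, η k ≤ 1 / ((k : ℝ) + 1) := by
    intro k
    by_contra h
    push Not at h
    obtain ⟨i⟩ := hne k
    refine hno k (a k i) (fun x hx => mem_thickening_iff.2 ⟨_, hctr k i, ?_⟩)
    refine lt_of_lt_of_le (mem_ball.1 hx) (h.le.trans ?_)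
    have : (0 : ℝ) ≤ k := by positivity
    nlinarith [hη k]
  -- constants
  obtain ⟨Λ, hΛ1, hΛ, hΛs⟩ : ∃ Λ : ℝ, 1 ≤ Λ ∧ (∀ x, ‖L x‖ ≤ Λ * ‖x‖) ∧
      ∀ x, ‖L.symm x‖ ≤ Λ * ‖x‖ := by
    obtain ⟨A, hA⟩ := L.toContinuousLinearMap.bound
    obtain ⟨B, hB⟩ := L.symm.toContinuousLinearMap.bound
    refine ⟨max 1 (max A B), le_max_left _ _, fun x => ?_, fun x => ?_⟩
    · exact (hA.2 x).trans (mul_le_mul_of_nonneg_right
        ((le_max_left _ _).trans (le_max_right _ _)) (norm_nonneg _))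
    · exact (hB.2 x).trans (mul_le_mul_of_nonneg_right
        ((le_max_right _ _).trans (le_max_right _ _)) (norm_nonneg _))
  have hΛ0 : 0 < Λ := by linarith
  obtain ⟨ρ, hρ, hρr⟩ : ∃ ρ : ℝ, 0 < ρ ∧ Λ * (2 * ρ) = r :=
    ⟨r / (2 * Λ), by positivity, by field_simp⟩
  obtain ⟨ρ', hρ', hρρ'⟩ : ∃ ρ' : ℝ, 0 < ρ' ∧ Λ * (3 * ρ') = ρ :=
    ⟨ρ / (3 * Λ), by positivity, by field_simp⟩
  obtain ⟨α, hα, hα1, hα2⟩ : ∃ α : ℝ, 0 < α ∧ α ≤ 1 / 3 ∧ α ≤ ρ' / 2 :=
    ⟨min (1 / 3) (ρ' / 2), by positivity, min_le_left _ _, min_le_right _ _⟩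
  -- pigeonhole
  obtain ⟨P, -, hPf, hP⟩ := (isCompact_closedBall (0 : EE (m + 1)) R).finite_cover_balls hρ'
  have hg : ∀ k, ∀ i : ι k, ∃ q ∈ hPf.toFinset, ‖a k i - q‖ < ρ' := by
    intro k i
    obtain ⟨q, hq, hq2⟩ := mem_iUnion₂.1 (hP (by
      rw [mem_closedBall, dist_zero_right]; exact ha k i : a k i ∈ closedBall 0 R))
    exact ⟨q, by simpa using hq, by rw [← dist_eq_norm]; exact hq2⟩
  choose g hgP hg using hg
  have hPne : hPf.toFinset.Nonempty := by
    obtain ⟨i⟩ := hne 0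
    exact ⟨_, hgP 0 i⟩
  have hPpos : (0 : ℝ) < hPf.toFinset.card := by exact_mod_cast hPne.card_pos
  have hpig : ∀ k, ∃ q ∈ hPf.toFinset, (Fintype.card (ι k) : ℝ) / hPf.toFinset.card ≤
      ((Finset.univ.filter fun i => g k i = q).card : ℝ) := by
    intro k
    refine Finset.exists_le_card_fiber_of_nsmul_le_card_of_maps_to (fun i _ => hgP k i) hPne ?_
    rw [nsmul_eq_mul, mul_div_cancel₀ _ hPpos.ne', Finset.card_univ]
  choose p0 hpP hp using hpig
  obtain ⟨J, hJ⟩ : ∃ J : ∀ k, Finset (ι k), ∀ k, J k = Finset.univ.filter fun i => g k i = p0 k :=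
    ⟨_, fun k => rfl⟩
  have hJne : ∀ k, ∃ i, i ∈ J k := by
    intro k
    have h1 := hp k
    rw [← hJ] at h1
    have : (0 : ℝ) < Fintype.card (ι k) := by exact_mod_cast Fintype.card_pos_iff.2 (hne k)
    have h2 : (0 : ℝ) < (J k).card := lt_of_lt_of_le (by positivity) h1
    exact Finset.card_pos.1 (by exact_mod_cast h2)
  choose i1 hi1 using hJne
  have hgJ : ∀ k, ∀ i ∈ J k, ‖a k i - a k (i1 k)‖ ≤ 2 * ρ' := by
    intro k i hi
    have h1 := hi
    have h2 := hi1 k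
    rw [hJ, Finset.mem_filter] at h1 h2
    have h3 := hg k i
    have h4 := hg k (i1 k)
    rw [h1.2] at h3
    rw [h2.2] at h4
    have h5 : a k i - a k (i1 k) = (a k i - p0 k) - (a k (i1 k) - p0 k) := by abel
    rw [h5]
    refine (norm_sub_le _ _).trans ?_
    linarith
  obtain ⟨c0, hc0, hvol⟩ := vol_tubes m L
  obtain ⟨V, hV⟩ : ∃ V : ℕ → Set (Fin (m + 1) → ℝ),
      ∀ k, V k = L '' ⋃ i ∈ J k, tube (δ k / 16) (e k i) (e k i) := ⟨_, fun k => rfl⟩
  have hVvol : ∀ k, ENNReal.ofReal (c0 * (ω / hPf.toFinset.card)) ≤ volume (V k) := by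
    intro k
    rw [hV]
    refine le_trans (ENNReal.ofReal_le_ofReal (mul_le_mul_of_nonneg_left ?_ hc0.le))
      (hvol (δ k) (ι k) (J k) (e k) (hδ k) (he k) (hsep k))
    rw [div_le_iff₀ hPpos]
    have h1 := hp k
    rw [← hJ, div_le_iff₀ hPpos] at h1
    refine (hcard k).trans ?_
    have h2 := mul_le_mul_of_nonneg_right h1 (pow_nonneg (hδ k).le m)
    linarith
  have hsel : ∀ (k : ℕ) (v : Fin (m + 1) → ℝ), ∃ a' : Fin (m + 1) → ℝ, v ∈ V k →
      ∃ i ∈ J k, ∃ v0 ∈ tube (δ k / 16) (e k i) (e k i), L v0 = v ∧ a' = L (a k i) := by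
    intro k v
    by_cases hv : v ∈ V k
    · have hv' := hv
      rw [hV] at hv'
      obtain ⟨v0, hv0, hv0v⟩ := hv'
      obtain ⟨i, hi, hv0i⟩ := mem_iUnion₂.1 hv0
      exact ⟨_, fun _ => ⟨i, hi, v0, hv0i, hv0v, rfl⟩⟩
    · exact ⟨0, fun h => absurd h hv⟩
  choose a' ha' using hsel
  obtain ⟨N, c, d, hcd, hbox⟩ := uniform (hyperfilter ℕ) Nat.hyperfilter_le_atTop (Fin (m + 1))
    (R := max (Λ * 2) (Λ * R)) (c1 := ENNReal.ofReal (c0 * (ω / hPf.toFinset.card)))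
    (by
      rw [ne_eq, ENNReal.ofReal_eq_zero, not_le]
      positivity) ENNReal.ofReal_ne_top V (by
      intro k v hv i
      obtain ⟨i0, hi0, v0, hv0, rfl, -⟩ := ha' k v hv
      refine (norm_le_pi_norm (L v0) i).trans ((hΛ v0).trans (le_trans ?_ (le_max_left _ _)))
      exact mul_le_mul_of_nonneg_left (tube_norm (he k i0) (by linarith [hδ1 k]) hv0) hΛ0.le)
    hVvol a' (by
      intro k v hv i
      obtain ⟨i0, hi0, v0, hv0, -, h2⟩ := ha' k v hv
      rw [h2]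
      refine (norm_le_pi_norm (L _) i).trans ((hΛ _).trans (le_trans ?_ (le_max_right _ _)))
      exact mul_le_mul_of_nonneg_left (ha k i0) hΛ0.le)
    (fun k => nbh L (S k) (a k (i1 k)) ρ (η k)) (fun k => nbh_mono (hη k).le)
    (fun k => nbh_cl (hη k).le hΛ0.le hΛs hρr.le (hcl k _ (hctr k (i1 k))))
    (α := -α) (β := α) (by linarith) (by
      intro k v hv t ht _
      obtain ⟨i0, hi0, v0, hv0, hv0v, h2⟩ := ha' k v hv
      have hx : (fun i => a' k v i + t * v i) = L (a k i0 + t • v0) := by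
        rw [map_add, map_smul, hv0v, ← h2]
        rfl
      have htα : |t| ≤ α := abs_le.2 ⟨ht.1.le, ht.2.le⟩
      refine ⟨L (a k i0 + t • v0), ?_, ?_, ?_⟩
      · rw [L.symm_apply_apply]
        exact hS k i0 (tube_seg (hδ k) (he k i0) hv0 (htα.trans hα1))
      · rw [← map_sub]
        refine (hΛ _).trans ?_
        have h3 : a k i0 + t • v0 - a k (i1 k) = (a k i0 - a k (i1 k)) + t • v0 := by abel
        have h4 := hgJ k i0 hi0
        have h5 := tube_norm (he k i0) (by linarith [hδ1 k]) hv0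
        have h6 : ‖a k i0 + t • v0 - a k (i1 k)‖ ≤ 3 * ρ' := by
          rw [h3]
          refine (norm_add_le _ _).trans ?_
          rw [norm_smul, Real.norm_eq_abs]
          have : |t| * ‖v0‖ ≤ ρ' / 2 * 2 := by
            refine mul_le_mul (htα.trans hα2) h5 (norm_nonneg _) (by positivity)
          linarith
        have h7 := mul_le_mul_of_nonneg_left h6 hΛ0.le
        rw [hρρ'] at h7
        rw [Nat.cast_zero, zero_mul, add_zero]
        exact h7
      · rw [hx, sub_self, norm_zero, Nat.cast_zero, zero_mul])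
  -- conclusion
  obtain ⟨q, hq⟩ : ∃ q : Fin (m + 1) → ℝ, q ∈ box c d := by
    refine ⟨fun i => ((c i : ℝ) + d i) / 2, fun i => ?_⟩
    have : (c i : ℝ) < d i := by exact_mod_cast hcd i
    constructor
    · show (c i : ℝ) < ((c i : ℝ) + d i) / 2
      linarith
    · show ((c i : ℝ) + d i) / 2 < (d i : ℝ)
      linarith
  have hopen : IsOpen (L ⁻¹' box c d) := (box_isOpen c d).preimage L.continuous
  obtain ⟨ρ₀, hρ₀, hball⟩ := Metric.isOpen_iff.1 hopen (L.symm q) (by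
    rw [mem_preimage, L.apply_symm_apply]; exact hq)
  have htend : Tendsto (fun k : ℕ => 1 / ((k : ℝ) + 1)) atTop (𝓝 0) :=
    tendsto_one_div_add_atTop_nhds_zero_nat
  have e1 : ∀ᶠ k : ℕ in atTop, 1 / ((k : ℝ) + 1) < ρ₀ := htend.eventually (gt_mem_nhds hρ₀)
  have e2 : ∀ᶠ k : ℕ in atTop, 1 / ((k : ℝ) + 1) < ρ / (N + 1) :=
    htend.eventually (gt_mem_nhds (by positivity))
  have e3 : ∀ᶠ k : ℕ in atTop, Λ * N < k := by
    obtain ⟨k0, hk0⟩ := exists_nat_gt (Λ * N)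
    filter_upwards [eventually_ge_atTop k0] with k hk
    exact hk0.trans_le (by exact_mod_cast hk)
  obtain ⟨k, hk, h1, h2, h3⟩ := (hbox.and ((e1.and (e2.and e3)).filter_mono
    Nat.hyperfilter_le_atTop)).exists
  refine hno k (L.symm q) fun x hx => ?_
  have hxb : L x ∈ box c d := hball (ball_subset_ball h1.le hx)
  have hηρ : (N : ℝ) * η k ≤ ρ := by
    have h4 : η k < ρ / (N + 1) := (hηs k).trans_lt h2
    rw [lt_div_iff₀ (by positivity)] at h4
    nlinarith [hη k]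
  obtain ⟨y, hy, -, hxy⟩ := hk hxb hηρ
  refine mem_thickening_iff.2 ⟨_, hy, ?_⟩
  rw [dist_eq_norm]
  have h5 : x - L.symm y = L.symm (L x - y) := by rw [map_sub, L.symm_apply_apply]
  rw [h5]
  refine (hΛs _).trans_lt ?_
  have h6 := mul_le_mul_of_nonneg_left hxy hΛ0.le
  have h7 := mul_lt_mul_of_pos_right h3 (hη k)
  nlinarith [hη k]

end Pool.Agent.V11222.KU
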