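import Pool.Agent.V11222.KU.Base

/-!
Sets which are closed under the coordinatewise maximum up to a small error, the maximum case.
-/

set_option autoImplicit false

namespace Pool.Agent.V11222.KU

open Set Filter Topology Pool.Agent.V11222.KO

variable {Ω κ : Type} (I : Ideal Ω) {l : Filter κ}

theorem box_sup {ι : Type} {c d : ι → ℚ} {x : ι → ℝ} (hx : x ∈ box c d) : x ⊔ x ∈ box c d := by
  rwa [sup_idem]

theorem max_case : ∀ (n : ℕ) (ι : Type) [Fintype ι] [DecidableEq ι] [Nonempty ι],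
    Fintype.card ι = n → ∀ E : κ → ℕ → Set (ι → ℝ), (∀ k, Monotone (E k)) →
    (∀ k i, ∀ x ∈ E k i, ∀ y ∈ E k i, x ⊔ y ∈ E k (i + 1)) →
    ∀ (F : Fam κ Ω l ι) (V : Set Ω) (α β : ℝ), α < β → ¬ I.Null V → Gen I F V →
    (∀ ω ∈ V, ∀ᶠ k in l, ∀ t ∈ Ioo α β, F.pt k ω t ∈ E k 0) →
    ∃ (N : ℕ) (c d : ι → ℚ), (∀ i, c i < d i) ∧ ∀ᶠ k in l, box c d ⊆ E k N := by
  intro n
  induction n using Nat.strong_induction_on with
  | _ n ih =>
  intro ι _ _ _ hcard E hEm hE F V α β hαβ hV hG hseg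
  obtain ⟨V0, hV0V, hV0, hne⟩ := hG.nonzero hV
  obtain ⟨i0⟩ := ‹Nonempty ι›
  by_cases hsub : ∀ j, j = i0
  · -- one coordinate
    obtain ⟨ω, hω⟩ := I.nonempty hV0
    have hv0 := hne ω hω i0
    obtain ⟨c, d, hcd, h1, h2⟩ := exists_cd (a' := F.a' ω i0) hv0 hαβ
    refine ⟨0, fun _ => c, fun _ => d, fun _ => hcd, ?_⟩
    filter_upwards [hseg ω (hV0V hω), ev_param (F.ha ω i0) (F.hv ω i0) hv0 h1 h2] with k k1 k2 y hy
    have h3 := k2.2 (y i0) ⟨(hy i0).1.le, (hy i0).2.le⟩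
    have h4 := k1 _ h3
    convert h4 using 1
    funext j
    rw [hsub j]
    simp only [Fam.pt]
    rw [div_mul_cancel₀ _ k2.1]; ring
  push Not at hsub
  obtain ⟨j0, hj0⟩ := hsub
  obtain ⟨r, hr⟩ := common F i0 hV0 (fun ω hω => hne ω hω i0) hαβ
  obtain ⟨V1, hV1⟩ : ∃ V1 : Set Ω, V1 = {ω ∈ V0 | ∃ t ∈ Ioo α β, F.a' ω i0 + t * F.v' ω i0 = r} :=
    ⟨_, rfl⟩
  rw [← hV1] at hr
  have hV1V : V1 ⊆ V0 := by rw [hV1]; exact fun v hv => hv.1
  -- for each `w` a box times a piece of the segment number `w`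
  have hfirst : ∀ w ∈ V1, ∃ (A : Finset ι) (r1 r2 : ℚ) (N : ℕ) (c d : {j // j ∈ A} → ℚ),
      A.Nonempty ∧ (∃ k, k ∉ A) ∧ r1 < r2 ∧ (∀ i, c i < d i) ∧
      ∀ᶠ k in l, ∀ x ∈ box c d, ∀ u ∈ Ioo (r1 : ℝ) r2,
        mg A x (rst (fun j => j ∉ A) (F.pt k w u)) ∈ E k N := by
    intro w hw
    have hw0 := hne w (hV1V hw)
    have hV2 : ¬ I.Null (V1 \ {ω | F.v' ω i0 * F.v' w j0 = F.v' ω j0 * F.v' w i0}) :=
      I.diff hr ((hG.mono (hV1V.trans hV0V)).2 i0 j0 (Ne.symm hj0) w hw (hw0 j0))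
    obtain ⟨⟨A, q1, q2, r1, r2⟩, hdata⟩ := I.pigeon hV2
      (fun e : Finset ι × ℚ × ℚ × ℚ × ℚ => {ω : Ω | e.1.Nonempty ∧ (∃ k, k ∉ e.1) ∧
        e.2.1 < e.2.2.1 ∧ e.2.2.2.1 < e.2.2.2.2 ∧ α ≤ e.2.1 ∧ (e.2.2.1 : ℝ) ≤ β ∧
        α ≤ e.2.2.2.1 ∧ (e.2.2.2.2 : ℝ) ≤ β ∧
        ∀ᶠ k in l, ∀ t ∈ Ioo (e.2.1 : ℝ) e.2.2.1, ∀ u ∈ Ioo (e.2.2.2.1 : ℝ) e.2.2.2.2,
          (∀ j ∈ e.1, F.pt k w u j < F.pt k ω t j) ∧
          (∀ j, j ∉ e.1 → F.pt k ω t j < F.pt k w u j)}) (by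
      rintro v ⟨hv1, hv2⟩
      have hv0 := hne v (hV1V hv1)
      have hv1' := hv1
      have hw1' := hw
      rw [hV1] at hv1' hw1'
      obtain ⟨q1, q2, r1, r2, h1, h2, h3, h4, h5, h6, h7, h8⟩ := split (i := i0) (j := j0)
        (a := F.a' v) (b := F.a' w) hv0 (fun _ => 1) (fun _ => one_ne_zero) hv2
        (by
          obtain ⟨t0, ht0, e1⟩ := hv1'.2
          obtain ⟨u0, hu0, e2⟩ := hw1'.2
          exact ⟨t0, ht0, u0, hu0, by rw [e1, e2]⟩)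
      simp only [mul_one] at h7 h8
      obtain ⟨p1, p2, hp12, hp1, hp2, hp⟩ := shrink h1
      obtain ⟨s1, s2, hs12, hs1, hs2, hs⟩ := shrink h2
      obtain ⟨tm, htm⟩ : ∃ tm, tm ∈ Icc (p1 : ℝ) p2 := nonempty_Icc.2 (by exact_mod_cast hp12.le)
      obtain ⟨um, hum⟩ : ∃ um, um ∈ Icc (s1 : ℝ) s2 := nonempty_Icc.2 (by exact_mod_cast hs12.le)
      obtain ⟨A, hA⟩ : ∃ A : Finset ι, A = Finset.univ.filter fun j =>
          F.a' w j + um * F.v' w j < F.a' v j + tm * F.v' v j := ⟨_, rfl⟩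
      have hmem : ∀ j, j ∈ A ↔ F.a' w j + um * F.v' w j < F.a' v j + tm * F.v' v j := by
        intro j; rw [hA]; simp
      have hp12' : (p1 : ℝ) ≤ p2 := by exact_mod_cast hp12.le
      have hs12' : (s1 : ℝ) ≤ s2 := by exact_mod_cast hs12.le
      have hq1p : (q1 : ℝ) ≤ p1 := by exact_mod_cast hp1.le
      have hq2p : (p2 : ℝ) ≤ q2 := by exact_mod_cast hp2.le
      have hr1p : (r1 : ℝ) ≤ s1 := by exact_mod_cast hs1.le
      have hr2p : (s2 : ℝ) ≤ r2 := by exact_mod_cast hs2.le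
      refine mem_iUnion.2 ⟨(A, p1, p2, s1, s2), ?_, ?_, hp12, hs12, h3.trans hq1p,
        hq2p.trans h4, h5.trans hr1p, hr2p.trans h6, ?_⟩
      · rcases h8 with h8 | h8
        · exact ⟨i0, (hmem i0).2 (by linarith [h8.1 tm (hp htm) um (hs hum)])⟩
        · exact ⟨j0, (hmem j0).2 (by linarith [h8.2 tm (hp htm) um (hs hum)])⟩
      · rcases h8 with h8 | h8
        · exact ⟨j0, fun h => by
            have := (hmem j0).1 h
            linarith [h8.2 tm (hp htm) um (hs hum)]⟩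
        · exact ⟨i0, fun h => by
            have := (hmem i0).1 h
            linarith [h8.1 tm (hp htm) um (hs hum)]⟩
      · have hall : ∀ j, ∀ᶠ k in l, ∀ t ∈ Icc (p1 : ℝ) p2, ∀ u ∈ Icc (s1 : ℝ) s2,
            (j ∈ A → F.pt k w u j < F.pt k v t j) ∧ (j ∉ A → F.pt k v t j < F.pt k w u j) := by
          intro j
          rcases h7 j with h7 | h7
          · have hj : j ∈ A := (hmem j).2 (by linarith [h7 tm (hp htm) um (hs hum)])
            filter_upwards [ev_rect (F.ha v j) (F.hv v j) (F.ha w j) (F.hv w j)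
              (tendsto_const_nhds (x := (1 : ℝ))) hp12' hs12' (fun t ht u hu => by
                rw [mul_one]; exact h7 t (hp ht) u (hs hu))] with k hk t ht u hu
            refine ⟨fun _ => ?_, fun h => absurd hj h⟩
            have := hk t ht u hu
            simp only [Fam.pt]
            linarith
          · have hj : j ∉ A := fun h => by
              have := (hmem j).1 h
              linarith [h7 tm (hp htm) um (hs hum)]
            filter_upwards [ev_rect (F.ha v j) (F.hv v j) (F.ha w j) (F.hv w j)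
              (tendsto_const_nhds (x := (-1 : ℝ))) hp12' hs12' (fun t ht u hu => by
                have := h7 t (hp ht) u (hs hu)
                linarith)] with k hk t ht u hu
            refine ⟨fun h => absurd h hj, fun _ => ?_⟩
            have := hk t ht u hu
            simp only [Fam.pt]
            linarith
        filter_upwards [eventually_all.2 hall] with k hk t ht u hu
        exact ⟨fun j hj => (hk j t ⟨ht.1.le, ht.2.le⟩ u ⟨hu.1.le, hu.2.le⟩).1 hj,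
          fun j hj => (hk j t ⟨ht.1.le, ht.2.le⟩ u ⟨hu.1.le, hu.2.le⟩).2 hj⟩)
    obtain ⟨v00, hv00⟩ := I.nonempty hdata
    obtain ⟨hAne, ⟨k1, hk1⟩, hq, hr12, hq1, hq2, hr1, hr2, -⟩ := hv00.2
    simp only at hAne k1 hk1 hq hr12 hq1 hq2 hr1 hr2
    -- induction on `A`
    obtain ⟨L, hL⟩ : ∃ L : κ → ℕ → Set ({j // j ∈ A} → ℝ), L = fun k i =>
        {x | ∀ u ∈ Ioo (r1 : ℝ) r2, mg A x (rst (fun j => j ∉ A) (F.pt k w u)) ∈ E k (i + 1)} :=
      ⟨_, rfl⟩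
    have hLm : ∀ k, Monotone (L k) := by
      intro k i i' hii x hx
      rw [hL] at hx ⊢
      intro u hu
      exact hEm k (by omega) (hx u hu)
    have hLcl : ∀ k i, ∀ x ∈ L k i, ∀ y ∈ L k i, x ⊔ y ∈ L k (i + 1) := by
      intro k i x hx y hy
      rw [hL] at hx hy ⊢
      intro u hu
      have h1 := hE k (i + 1) _ (hx u hu) _ (hy u hu)
      rwa [← mg_sup, sup_idem] at h1
    have hcA : Fintype.card {k // k ∈ A} < n := by
      rw [← hcard]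
      exact Fintype.card_subtype_lt hk1
    have : Nonempty {k // k ∈ A} := ⟨⟨hAne.choose, hAne.choose_spec⟩⟩
    obtain ⟨V2, hV2'⟩ : ∃ V2 : Set Ω, V2 = (V1 \ {ω | F.v' ω i0 * F.v' w j0 = F.v' ω j0 * F.v' w i0}) ∩
      {ω : Ω | A.Nonempty ∧ (∃ k, k ∉ A) ∧
        q1 < q2 ∧ r1 < r2 ∧ α ≤ q1 ∧ (q2 : ℝ) ≤ β ∧
        α ≤ r1 ∧ (r2 : ℝ) ≤ β ∧
        ∀ᶠ k in l, ∀ t ∈ Ioo (q1 : ℝ) q2, ∀ u ∈ Ioo (r1 : ℝ) r2,
          (∀ j ∈ A, F.pt k w u j < F.pt k ω t j) ∧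
          (∀ j, j ∉ A → F.pt k ω t j < F.pt k w u j)} := ⟨_, rfl⟩
    have hV2V : V2 ⊆ V := by
      rw [hV2']
      rintro ω ⟨⟨hω, -⟩, -⟩
      exact hV0V (hV1V hω)
    obtain ⟨N, c, d, hcd, hbox⟩ := ih _ hcA {k // k ∈ A} rfl L hLm hLcl (F.res fun j => j ∈ A)
      V2 q1 q2 (by exact_mod_cast hq) (by rw [hV2']; exact hdata) ((hG.mono hV2V).res _) (by
        intro ω hω
        have hωV := hV2V hω
        rw [hV2'] at hω
        obtain ⟨⟨hv1, -⟩, -, -, -, -, -, -, -, -, hev⟩ := hω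
        filter_upwards [hev, hseg ω hωV, hseg w (hV0V (hV1V hw))] with k k1 k2 k3 t ht
        rw [hL]
        intro u hu
        have h9 := k1 t ht u hu
        have htα : t ∈ Ioo α β := ⟨hq1.trans_lt ht.1, ht.2.trans_le hq2⟩
        have huα : u ∈ Ioo α β := ⟨hr1.trans_lt hu.1, hu.2.trans_le hr2⟩
        have h10 := hE k 0 _ (k2 t htα) _ (k3 u huα)
        rw [sup_eq_mg A (x := F.pt k ω t) (y := F.pt k w u) (fun j hj => h9.1 j hj)
          (fun j hj => h9.2 j hj)] at h10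
        exact h10)
    refine ⟨A, r1, r2, N + 1, c, d, hAne, ⟨k1, hk1⟩, hr12, hcd, ?_⟩
    filter_upwards [hbox] with k hk x hx u hu
    have hxL := hk hx
    rw [hL] at hxL
    exact hxL u hu
  -- a common box
  obtain ⟨⟨A, r1, r2, N, c, d⟩, hW⟩ := I.pigeon hr
    (fun e : (A : Finset ι) × ℚ × ℚ × ℕ × ({j // j ∈ A} → ℚ) × ({j // j ∈ A} → ℚ) =>
      {w : Ω | e.1.Nonempty ∧ (∃ k, k ∉ e.1) ∧ e.2.1 < e.2.2.1 ∧
        (∀ i, e.2.2.2.2.1 i < e.2.2.2.2.2 i) ∧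
        ∀ᶠ k in l, ∀ x ∈ box e.2.2.2.2.1 e.2.2.2.2.2, ∀ u ∈ Ioo (e.2.1 : ℝ) e.2.2.1,
        mg e.1 x (rst (fun k => k ∉ e.1) (F.pt k w u)) ∈ E k e.2.2.2.1}) (by
    intro w hw
    obtain ⟨A, r1, r2, N, c, d, h⟩ := hfirst w hw
    exact mem_iUnion.2 ⟨⟨A, r1, r2, N, c, d⟩, h⟩)
  obtain ⟨w00, hw00⟩ := I.nonempty hW
  obtain ⟨⟨kA, hkA⟩, ⟨k1, hk1⟩, hr12, hcd, -⟩ := hw00.2
  simp only at kA hkA k1 hk1 hr12 hcd
  obtain ⟨M, hM⟩ : ∃ M : κ → ℕ → Set ({k // k ∉ A} → ℝ), M = fun k i => {y | ∀ x ∈ box c d,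
      mg A x y ∈ E k (i + N)} := ⟨_, rfl⟩
  have hMm : ∀ k, Monotone (M k) := by
    intro k i i' hii y hy
    rw [hM] at hy ⊢
    intro x hx
    exact hEm k (by omega) (hy x hx)
  have hMcl : ∀ k i, ∀ x ∈ M k i, ∀ y ∈ M k i, x ⊔ y ∈ M k (i + 1) := by
    intro k i y hy y' hy'
    rw [hM] at hy hy' ⊢
    intro x hx
    have h1 := hE k (i + N) _ (hy x hx) _ (hy' x hx)
    rw [← mg_sup, sup_idem] at h1
    have e : i + 1 + N = i + N + 1 := by omega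
    show mg A x (y ⊔ y') ∈ E k (i + 1 + N)
    rw [e]
    exact h1
  have hcA : Fintype.card {k // k ∉ A} < n := by
    rw [← hcard]
    exact Fintype.card_subtype_lt (x := kA) (not_not.2 hkA)
  have : Nonempty {k // k ∉ A} := ⟨⟨k1, hk1⟩⟩
  obtain ⟨W, hWdef⟩ : ∃ W : Set Ω, W = V1 ∩ {w : Ω | A.Nonempty ∧ (∃ k, k ∉ A) ∧ r1 < r2 ∧
        (∀ i, c i < d i) ∧
        ∀ᶠ k in l, ∀ x ∈ box c d, ∀ u ∈ Ioo (r1 : ℝ) r2,
        mg A x (rst (fun k => k ∉ A) (F.pt k w u)) ∈ E k N} := ⟨_, rfl⟩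
  have hWV : W ⊆ V := by
    rw [hWdef]
    rintro ω ⟨hω, -⟩
    exact hV0V (hV1V hω)
  obtain ⟨N', c', d', hcd', hbox'⟩ := ih _ hcA {k // k ∉ A} rfl M hMm hMcl (F.res fun j => j ∉ A)
    W r1 r2 (by exact_mod_cast hr12) (by rw [hWdef]; exact hW) ((hG.mono hWV).res _) (by
      intro w hw
      rw [hWdef] at hw
      filter_upwards [hw.2.2.2.2.2] with k hk u hu
      rw [hM]
      intro x hx
      show mg A x _ ∈ E k (0 + N)
      rw [zero_add]
      exact hk x hx u hu)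
  refine ⟨N' + N, fun j => if h : j ∈ A then c ⟨j, h⟩ else c' ⟨j, h⟩,
    fun j => if h : j ∈ A then d ⟨j, h⟩ else d' ⟨j, h⟩, ?_, ?_⟩
  · intro j
    by_cases h : j ∈ A
    · simp only [dif_pos h]; exact hcd _
    · simp only [dif_neg h]; exact hcd' _
  · filter_upwards [hbox'] with k hk z hz
    have h2 : rst (fun j => j ∉ A) z ∈ box c' d' := by
      rintro ⟨j, hj⟩
      have := hz j
      simp only [dif_neg hj] at this
      exact this
    have h1 : rst (fun j => j ∈ A) z ∈ box c d := by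
      rintro ⟨j, hj⟩
      have := hz j
      simp only [dif_pos hj] at this
      exact this
    have h3 := hk h2
    rw [hM] at h3
    have h4 := h3 _ h1
    rwa [mg_rst] at h4

theorem min_case (ι : Type) [Fintype ι] [DecidableEq ι] [Nonempty ι]
    (E : κ → ℕ → Set (ι → ℝ)) (hEm : ∀ k, Monotone (E k))
    (hE : ∀ k i, ∀ x ∈ E k i, ∀ y ∈ E k i, x ⊓ y ∈ E k (i + 1))
    (F : Fam κ Ω l ι) (V : Set Ω) (α β : ℝ) (hαβ : α < β) (hV : ¬ I.Null V) (hG : Gen I F V)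
    (hseg : ∀ ω ∈ V, ∀ᶠ k in l, ∀ t ∈ Ioo α β, F.pt k ω t ∈ E k 0) :
    ∃ (N : ℕ) (c d : ι → ℚ), (∀ i, c i < d i) ∧ ∀ᶠ k in l, box c d ⊆ E k N := by
  obtain ⟨F', hF'⟩ : ∃ F' : Fam κ Ω l ι, F' = ⟨fun k ω i => - F.a k ω i, fun k ω i => - F.v k ω i,
    fun ω i => - F.a' ω i, fun ω i => - F.v' ω i, fun ω i => (F.ha ω i).neg,
    fun ω i => (F.hv ω i).neg⟩ := ⟨_, rfl⟩
  obtain ⟨N, c, d, hcd, hbox⟩ := max_case I _ ι rfl (fun k i => -(E k i))
    (fun k i i' hii => Set.neg_subset_neg.2 (hEm k hii)) (by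
      intro k i x hx y hy
      have h2 := hE k i _ hx _ hy
      rw [Set.mem_neg]
      rwa [neg_sup]) F' V α β hαβ hV (by
      refine ⟨fun i => ?_, fun i j hij ω₀ h0 h1 => ?_⟩
      · refine I.mono ?_ (hG.1 i)
        rintro ω ⟨hω, h⟩
        refine ⟨hω, ?_⟩
        rw [hF'] at h
        simpa using h
      · refine I.mono ?_ (hG.2 i j hij ω₀ h0 (by rw [hF'] at h1; simpa using h1))
        rintro ω ⟨hω, h⟩
        refine ⟨hω, ?_⟩
        rw [hF'] at h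
        simpa using h) (by
      intro ω hω
      filter_upwards [hseg ω hω] with k hk t ht
      have h1 := hk t ht
      rw [Set.mem_neg]
      convert h1 using 1
      rw [hF']
      funext i
      simp only [Fam.pt, Pi.neg_apply]
      ring)
  refine ⟨N, fun i => - d i, fun i => - c i, fun i => neg_lt_neg (hcd i), ?_⟩
  filter_upwards [hbox] with k hk y hy
  have h1 : -y ∈ box c d := by
    intro i
    have := hy i
    push_cast at this
    simp only [Pi.neg_apply]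
    constructor <;> linarith
  have h2 := hk h1
  simpa using h2

end Pool.Agent.V11222.KU
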