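import Pool.Agent.V11222.KU.Geo

/-!
Families of tubes contained in a set which is locally closed, up to an error, under order
operations.
-/

set_option autoImplicit false

namespace Pool.Agent.V11222.KU

open Set Filter Topology MeasureTheory Pool.Agent.V11160.OP Metric
open scoped ENNReal

/-- closure near a point, up to an error, in coordinates -/
def ClAt {n : ℕ} (L : EE n ≃L[ℝ] (Fin n → ℝ)) (p : EE n) (r η : ℝ) (S : Set (EE n)) : Prop :=
  ∃ (m : ℕ) (f : (Fin m → ℝ) → ℝ), OrderOp f ∧ (¬ ∃ j, ∀ x, f x = x j) ∧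
    ∀ x : Fin m → EE n, (∀ l, x l ∈ S ∧ ‖x l - p‖ ≤ r) →
      ∃ y ∈ S, ‖(fun i => f (fun l => L (x l) i)) - L y‖ ≤ η

/-- neighbourhoods of a part of the set, in coordinates -/
def nbh {n : ℕ} (L : EE n ≃L[ℝ] (Fin n → ℝ)) (S : Set (EE n)) (p : EE n) (ρ η : ℝ) (i : ℕ) :
    Set (Fin n → ℝ) :=
  {x | (i : ℝ) * η ≤ ρ → ∃ y, L.symm y ∈ S ∧ ‖y - L p‖ ≤ ρ + i * η ∧ ‖x - y‖ ≤ i * η}

variable {n : ℕ} {L : EE n ≃L[ℝ] (Fin n → ℝ)} {S : Set (EE n)} {p : EE n} {ρ η : ℝ}

theorem nbh_mono (hη : 0 ≤ η) : Monotone (nbh L S p ρ η) := by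
  intro i j hij x hx hj
  have h1 : (i : ℝ) * η ≤ j * η := mul_le_mul_of_nonneg_right (by exact_mod_cast hij) hη
  obtain ⟨y, hy, h2, h3⟩ := hx (h1.trans hj)
  exact ⟨y, hy, by linarith, by linarith⟩

theorem nbh_step {i : ℕ} {w w0 : Fin n → ℝ} (h1 : ‖w - w0‖ ≤ i * η)
    (h2 : ‖w0 - L p‖ ≤ ρ + i * η) {s : EE n} (hs : s ∈ S) (h3 : ‖w0 - L s‖ ≤ η) :
    w ∈ nbh L S p ρ η (i + 1) := by
  intro _
  refine ⟨L s, by rwa [L.symm_apply_apply], ?_, ?_⟩
  · have h : L s - L p = (w0 - L p) - (w0 - L s) := by abel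
    rw [h]
    refine (norm_sub_le _ _).trans ?_
    push_cast
    linarith
  · have h : w - L s = (w - w0) + (w0 - L s) := by abel
    rw [h]
    refine (norm_add_le _ _).trans ?_
    push_cast
    linarith

theorem nbh_cl (hη : 0 ≤ η) {Λ r : ℝ} (hΛ0 : 0 ≤ Λ) (hΛ : ∀ x, ‖L.symm x‖ ≤ Λ * ‖x‖)
    (hr : Λ * (2 * ρ) ≤ r) (hcl : ClAt L p r η S) : ∃ ty, ClE ty (nbh L S p ρ η) := by
  obtain ⟨m, f, hf, hnt, hcl⟩ := hcl
  have hpt : ∀ (i : ℕ), (i : ℝ) * η ≤ ρ → ∀ y, ‖y - L p‖ ≤ ρ + i * η → ‖L.symm y - p‖ ≤ r := by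
    intro i hi y hy
    have h : L.symm y - p = L.symm (y - L p) := by rw [map_sub, L.symm_apply_apply]
    rw [h]
    refine (hΛ _).trans (le_trans (mul_le_mul_of_nonneg_left ?_ hΛ0) hr)
    linarith
  have hle : ∀ (i : ℕ), ((i + 1 : ℕ) : ℝ) * η ≤ ρ → (i : ℝ) * η ≤ ρ := by
    intro i hi
    push_cast at hi
    linarith
  have hco : ∀ {x : Fin n → ℝ} {c : ℝ}, ‖x‖ ≤ c → ∀ j, |x j| ≤ c := fun {x c} h j =>
    (norm_le_pi_norm x j).trans h
  rcases minors hf hnt with ⟨T, hT⟩ | ⟨T, hT⟩ | ⟨j, T, hT⟩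
  · refine ⟨0, fun _ i x hx x' hx' h1 => ?_, fun h => absurd h (by decide),
      fun h => absurd h (by decide)⟩
    obtain ⟨y, hy, h2, h3⟩ := hx (hle i h1)
    obtain ⟨y', hy', h2', h3'⟩ := hx' (hle i h1)
    have hη' : 0 ≤ (i : ℝ) * η := by positivity
    obtain ⟨s, hs, h4⟩ := hcl (fun l => if l ∈ T then L.symm y else L.symm y') (by
      intro l
      split_ifs
      · exact ⟨hy, hpt i (hle i h1) y h2⟩
      · exact ⟨hy', hpt i (hle i h1) y' h2'⟩)
    have h5 : (fun i => f (fun l => L ((fun l => if l ∈ T then L.symm y else L.symm y') l) i)) =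
        y ⊓ y' := by
      funext i
      rw [Pi.inf_apply, ← hT]
      congr 1
      funext l
      dsimp only
      split_ifs <;> rw [L.apply_symm_apply]
    rw [h5] at h4
    refine nbh_step (w0 := y ⊓ y') ?_ ?_ hs h4 h1
    · refine (pi_norm_le_iff_of_nonneg hη').2 fun j => ?_
      exact min_lip (hco h3 j) (hco h3' j)
    · refine (pi_norm_le_iff_of_nonneg (by linarith [hle i h1])).2 fun j => ?_
      have := min_lip (hco h2 j) (hco h2' j)
      simpa [Real.norm_eq_abs, Pi.sub_apply, min_self] using this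
  · refine ⟨1, fun h => absurd h (by decide), fun _ i x hx x' hx' h1 => ?_,
      fun h => absurd h (by decide)⟩
    obtain ⟨y, hy, h2, h3⟩ := hx (hle i h1)
    obtain ⟨y', hy', h2', h3'⟩ := hx' (hle i h1)
    have hη' : 0 ≤ (i : ℝ) * η := by positivity
    obtain ⟨s, hs, h4⟩ := hcl (fun l => if l ∈ T then L.symm y else L.symm y') (by
      intro l
      split_ifs
      · exact ⟨hy, hpt i (hle i h1) y h2⟩
      · exact ⟨hy', hpt i (hle i h1) y' h2'⟩)
    have h5 : (fun i => f (fun l => L ((fun l => if l ∈ T then L.symm y else L.symm y') l) i)) =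
        y ⊔ y' := by
      funext i
      rw [Pi.sup_apply, ← hT]
      congr 1
      funext l
      dsimp only
      split_ifs <;> rw [L.apply_symm_apply]
    rw [h5] at h4
    refine nbh_step (w0 := y ⊔ y') ?_ ?_ hs h4 h1
    · refine (pi_norm_le_iff_of_nonneg hη').2 fun j => ?_
      exact max_lip (hco h3 j) (hco h3' j)
    · refine (pi_norm_le_iff_of_nonneg (by linarith [hle i h1])).2 fun j => ?_
      have := max_lip (hco h2 j) (hco h2' j)
      simpa [Real.norm_eq_abs, Pi.sub_apply, max_self] using this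
  · refine ⟨2, fun h => absurd h (by decide), fun h => absurd h (by decide),
      fun _ i x hx x' hx' x'' hx'' h1 => ?_⟩
    obtain ⟨y, hy, h2, h3⟩ := hx (hle i h1)
    obtain ⟨y', hy', h2', h3'⟩ := hx' (hle i h1)
    obtain ⟨y'', hy'', h2'', h3''⟩ := hx'' (hle i h1)
    have hη' : 0 ≤ (i : ℝ) * η := by positivity
    obtain ⟨s, hs, h4⟩ := hcl (fun l => if l = j then L.symm y else if l ∈ T then L.symm y' else
        L.symm y'') (by
      intro l
      split_ifs
      · exact ⟨hy, hpt i (hle i h1) y h2⟩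
      · exact ⟨hy', hpt i (hle i h1) y' h2'⟩
      · exact ⟨hy'', hpt i (hle i h1) y'' h2''⟩)
    have h5 : (fun i => f (fun l => L ((fun l => if l = j then L.symm y else if l ∈ T then
        L.symm y' else L.symm y'') l) i)) = fun i => med (y i) (y' i) (y'' i) := by
      funext i
      rw [← hT]
      congr 1
      funext l
      dsimp only
      split_ifs <;> rw [L.apply_symm_apply]
    rw [h5] at h4
    refine nbh_step (w0 := fun i => med (y i) (y' i) (y'' i)) ?_ ?_ hs h4 h1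
    · refine (pi_norm_le_iff_of_nonneg hη').2 fun j => ?_
      exact med_lip (hco h3 j) (hco h3' j) (hco h3'' j)
    · refine (pi_norm_le_iff_of_nonneg (by linarith [hle i h1])).2 fun j => ?_
      have := med_lip (hco h2 j) (hco h2' j) (hco h2'' j)
      simpa [Real.norm_eq_abs, Pi.sub_apply, med_self] using this

theorem vol_image (L : EE n ≃L[ℝ] (Fin n → ℝ)) : ∃ κ : ℝ, 0 < κ ∧ ∀ A : Set (EE n),
    volume (L '' A) = ENNReal.ofReal κ * volume A := by
  have hm : (Measure.map L.symm (volume : Measure (Fin n → ℝ))).IsAddHaarMeasure :=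
    L.symm.isAddHaarMeasure_map volume
  have h1 := Measure.isAddLeftInvariant_eq_smul
    (Measure.map L.symm (volume : Measure (Fin n → ℝ))) (volume : Measure (EE n))
  have h2 := Measure.addHaarScalarFactor_pos_of_isAddHaarMeasure
    (Measure.map L.symm (volume : Measure (Fin n → ℝ))) (volume : Measure (EE n))
  refine ⟨_, NNReal.coe_pos.2 h2, fun A => ?_⟩
  have hemb : MeasurableEmbedding (L.symm : (Fin n → ℝ) → EE n) :=
    L.symm.toHomeomorph.measurableEmbedding
  have h3 : Measure.map L.symm (volume : Measure (Fin n → ℝ)) A = volume (L '' A) := by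
    rw [hemb.map_apply]
    congr 1
    ext y
    simp only [mem_preimage, mem_image]
    constructor
    · intro hy; exact ⟨_, hy, L.apply_symm_apply y⟩
    · rintro ⟨x, hx, rfl⟩
      rw [L.symm_apply_apply]; exact hx
  have h4 := DFunLike.congr_fun h1 A
  rw [← h3, h4, Measure.smul_apply, ENNReal.ofReal_coe_nnreal]
  rfl

/-- the total volume of the thin tubes around the origin -/
theorem vol_tubes (m : ℕ) (L : EE (m + 1) ≃L[ℝ] (Fin (m + 1) → ℝ)) : ∃ c : ℝ, 0 < c ∧
    ∀ (δ : ℝ) (ι : Type) (J : Finset ι) (e : ι → EE (m + 1)), 0 < δ → (∀ i, ‖e i‖ = 1) →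
      (∀ i j, i ≠ j → δ ≤ ‖e i - e j‖) → ENNReal.ofReal (c * (J.card * δ ^ m)) ≤
        volume (L '' ⋃ i ∈ J, tube (δ / 16) (e i) (e i)) := by
  obtain ⟨κ, hκ, hvol⟩ := vol_image L
  obtain ⟨c, hc, htube⟩ := Pool.Agent.H742R2.Kk.volume_tube m
  refine ⟨κ * (c * (1 / 16) ^ m), by positivity, ?_⟩
  intro δ ι J e hδ he hsep
  rw [hvol, measure_biUnion_finset (fun i _ j _ hij => tube_disj hδ (he i) (he j) (hsep i j hij))
    (fun i _ => (tube_closed _ _ _).measurableSet)]
  have h1 : ∀ i ∈ J, ENNReal.ofReal (c * (δ / 16) ^ m) ≤ volume (tube (δ / 16) (e i) (e i)) :=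
    fun i _ => htube (δ / 16) (e i) (e i) (by positivity) (he i)
  have h2 := Finset.sum_le_sum h1
  rw [Finset.sum_const, nsmul_eq_mul] at h2
  refine le_trans (le_of_eq ?_) (mul_le_mul_right h2 (ENNReal.ofReal κ))
  rw [← ENNReal.ofReal_natCast, ← ENNReal.ofReal_mul (by positivity),
    ← ENNReal.ofReal_mul hκ.le]
  congr 1
  rw [div_eq_mul_one_div δ 16, mul_pow]
  ring

end Pool.Agent.V11222.KU
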